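import Pool.Agent.Helper99.EXC.Defs

/-! # Basic rules for the one-step operator -/

open Finset

namespace Pool.Agent.Helper99.EXC

open Pool.Agent.Helper99.ERW

section lin

variable (p : Site 2 → ℕ → ℝ) (Λ : Finset (Site 2))

lemma stp_add (f g : St → ℝ) (s : St) :
    stp p (fun s => f s + g s) s = stp p f s + stp p g s := by
  unfold stp; ring

lemma stp_sub (f g : St → ℝ) (s : St) :
    stp p (fun s => f s - g s) s = stp p f s - stp p g s := by
  unfold stp; ring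

lemma stp_smul (c : ℝ) (f : St → ℝ) (s : St) :
    stp p (fun s => c * f s) s = c * stp p f s := by
  unfold stp; ring

lemma stp_const (c : ℝ) (s : St) : stp p (fun _ => c) s = c := by
  unfold stp; ring

lemma stp_of_eq {f : St → ℝ} {s : St} {c : ℝ} (h : ∀ e, f (nxt s e) = c) : stp p f s = c := by
  unfold stp; rw [h, h, h, h]; ring

/-- step of a function of the position only -/
lemma stp_pos (a : ℝ) (f : Site 2 → ℝ) (s : St) :
    stp p (fun s => f s.1) s = f s.1 + La a f s.1 + dS a p s * Df f s.1 := by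
  unfold stp La dS Df secondDiff nxt; ring

/-- step of a function whose dependence on the local times has been resolved -/
lemma stp_pos' (a : ℝ) (F : Site 2 → (Site 2 → ℕ) → ℝ) (s : St) :
    stp p (fun s => F s.1 s.2) s = F s.1 (inc s) + La a (fun x => F x (inc s)) s.1 +
      dS a p s * Df (fun x => F x (inc s)) s.1 := by
  unfold stp La dS Df secondDiff nxt inc; ring

lemma KK_in {f : St → ℝ} {s : St} (h : s.1 ∈ Λ) : KK p Λ f s = stp p f s := by
  unfold KK; rw [if_pos h]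

lemma KK_out {f : St → ℝ} {s : St} (h : s.1 ∉ Λ) : KK p Λ f s = f s := by
  unfold KK; rw [if_neg h]

lemma inn_in {g : St → ℝ} {s : St} (h : s.1 ∈ Λ) : inn Λ g s = g s := by
  unfold inn; rw [if_pos h]

lemma inn_out {g : St → ℝ} {s : St} (h : s.1 ∉ Λ) : inn Λ g s = 0 := by
  unfold inn; rw [if_neg h]

lemma inn_add (f g : St → ℝ) : inn Λ (fun s => f s + g s) = fun s => inn Λ f s + inn Λ g s := by
  funext s; unfold inn; split_ifs <;> simp

lemma inn_sub (f g : St → ℝ) : inn Λ (fun s => f s - g s) = fun s => inn Λ f s - inn Λ g s := by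
  funext s; unfold inn; split_ifs <;> simp

lemma inn_smul (c : ℝ) (f : St → ℝ) : inn Λ (fun s => c * f s) = fun s => c * inn Λ f s := by
  funext s; unfold inn; split_ifs <;> simp

lemma inn_abs (f : St → ℝ) : (fun s => |inn Λ f s|) = inn Λ (fun s => |f s|) := by
  funext s; unfold inn; split_ifs <;> simp

lemma KK_add (f g : St → ℝ) : KK p Λ (fun s => f s + g s) = fun s => KK p Λ f s + KK p Λ g s := by
  funext s; unfold KK; split_ifs
  · exact stp_add p f g s
  · rfl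

lemma KK_sub (f g : St → ℝ) : KK p Λ (fun s => f s - g s) = fun s => KK p Λ f s - KK p Λ g s := by
  funext s; unfold KK; split_ifs
  · exact stp_sub p f g s
  · rfl

lemma KK_smul (c : ℝ) (f : St → ℝ) : KK p Λ (fun s => c * f s) = fun s => c * KK p Λ f s := by
  funext s; unfold KK; split_ifs
  · exact stp_smul p c f s
  · rfl

lemma KK_const (c : ℝ) : KK p Λ (fun _ => c) = fun _ => c := by
  funext s; unfold KK; split_ifs
  · exact stp_const p c s
  · rfl

lemma Ex_zero (f : St → ℝ) : Ex p Λ 0 f = f := rfl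

lemma Ex_succ (N : ℕ) (f : St → ℝ) : Ex p Λ (N + 1) f = KK p Λ (Ex p Λ N f) := by
  unfold Ex; rw [Function.iterate_succ_apply']

lemma Ex_succ' (N : ℕ) (f : St → ℝ) : Ex p Λ (N + 1) f = Ex p Λ N (KK p Λ f) := by
  unfold Ex; rw [Function.iterate_succ_apply]

lemma Ex_Ex (M N : ℕ) (f : St → ℝ) : Ex p Λ M (Ex p Λ N f) = Ex p Λ (M + N) f := by
  unfold Ex; rw [Function.iterate_add_apply]

lemma Ex_add (N : ℕ) (f g : St → ℝ) :
    Ex p Λ N (fun s => f s + g s) = fun s => Ex p Λ N f s + Ex p Λ N g s := by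
  induction N with
  | zero => rfl
  | succ N ih => rw [Ex_succ, ih, KK_add, ← Ex_succ, ← Ex_succ]

lemma Ex_sub (N : ℕ) (f g : St → ℝ) :
    Ex p Λ N (fun s => f s - g s) = fun s => Ex p Λ N f s - Ex p Λ N g s := by
  induction N with
  | zero => rfl
  | succ N ih => rw [Ex_succ, ih, KK_sub, ← Ex_succ, ← Ex_succ]

lemma Ex_smul (N : ℕ) (c : ℝ) (f : St → ℝ) :
    Ex p Λ N (fun s => c * f s) = fun s => c * Ex p Λ N f s := by
  induction N with
  | zero => rfl
  | succ N ih => rw [Ex_succ, ih, KK_smul, ← Ex_succ]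

lemma Ex_const (N : ℕ) (c : ℝ) : Ex p Λ N (fun _ => c) = fun _ => c := by
  induction N with
  | zero => rfl
  | succ N ih => rw [Ex_succ, ih, KK_const]

lemma Ex_sum {ι : Type*} (N : ℕ) (t : Finset ι) (f : ι → St → ℝ) (s : St) :
    Ex p Λ N (fun s => ∑ i ∈ t, f i s) s = ∑ i ∈ t, Ex p Λ N (f i) s := by
  classical
  induction t using Finset.induction_on with
  | empty =>
    simp only [Finset.sum_empty]
    rw [Ex_const]
  | insert i t hi ih =>
    simp only [Finset.sum_insert hi]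
    rw [Ex_add p Λ N (f i) (fun s => ∑ i ∈ t, f i s)]
    simp only [ih]

lemma Ex_out (N : ℕ) (f : St → ℝ) {s : St} (h : s.1 ∉ Λ) : Ex p Λ N f s = f s := by
  induction N with
  | zero => rfl
  | succ N ih => rw [Ex_succ, KK_out p Λ h, ih]

lemma Rw_zero (g : St → ℝ) (s : St) : Rw p Λ 0 g s = 0 := by simp [Rw]

lemma Rw_add (N : ℕ) (f g : St → ℝ) (s : St) :
    Rw p Λ N (fun s => f s + g s) s = Rw p Λ N f s + Rw p Λ N g s := by
  unfold Rw
  rw [← Finset.sum_add_distrib]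
  refine Finset.sum_congr rfl fun m _ => ?_
  rw [inn_add, Ex_add]

lemma Rw_sub (N : ℕ) (f g : St → ℝ) (s : St) :
    Rw p Λ N (fun s => f s - g s) s = Rw p Λ N f s - Rw p Λ N g s := by
  unfold Rw
  rw [← Finset.sum_sub_distrib]
  refine Finset.sum_congr rfl fun m _ => ?_
  rw [inn_sub, Ex_sub]

lemma Rw_smul (N : ℕ) (c : ℝ) (g : St → ℝ) (s : St) :
    Rw p Λ N (fun s => c * g s) s = c * Rw p Λ N g s := by
  unfold Rw
  rw [Finset.mul_sum]
  refine Finset.sum_congr rfl fun m _ => ?_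
  rw [inn_smul, Ex_smul]

lemma Rw_sum {ι : Type*} (N : ℕ) (t : Finset ι) (f : ι → St → ℝ) (s : St) :
    Rw p Λ N (fun s => ∑ i ∈ t, f i s) s = ∑ i ∈ t, Rw p Λ N (f i) s := by
  classical
  induction t using Finset.induction_on with
  | empty =>
    simp only [Finset.sum_empty]
    have := Rw_smul p Λ N 0 (fun _ => 0) s
    simpa using this
  | insert i t hi ih =>
    simp only [Finset.sum_insert hi]
    rw [Rw_add p Λ N (f i) (fun s => ∑ i ∈ t, f i s), ih]

lemma Rw_congr (N : ℕ) {f g : St → ℝ} (h : ∀ s, s.1 ∈ Λ → f s = g s) (s : St) :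
    Rw p Λ N f s = Rw p Λ N g s := by
  have : inn Λ f = inn Λ g := by
    funext s
    by_cases hs : s.1 ∈ Λ
    · rw [inn_in Λ hs, inn_in Λ hs, h s hs]
    · rw [inn_out Λ hs, inn_out Λ hs]
  unfold Rw
  rw [this]

lemma Rw_out (N : ℕ) (g : St → ℝ) {s : St} (h : s.1 ∉ Λ) : Rw p Λ N g s = 0 := by
  unfold Rw
  refine Finset.sum_eq_zero fun m _ => ?_
  rw [Ex_out p Λ m _ h, inn_out Λ h]

/-- first step decomposition -/
lemma Rw_succ (N : ℕ) (g : St → ℝ) (s : St) :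
    Rw p Λ (N + 1) g s = inn Λ g s + KK p Λ (Rw p Λ N g) s := by
  have h1 : KK p Λ (Rw p Λ N g) s = ∑ m ∈ range N, Ex p Λ (m + 1) (inn Λ g) s := by
    have : Rw p Λ N g = fun s => ∑ m ∈ range N, Ex p Λ m (inn Λ g) s := rfl
    rw [this]
    have h2 := Ex_sum p Λ 1 (range N) (fun m => Ex p Λ m (inn Λ g)) s
    have h3 : ∀ f : St → ℝ, Ex p Λ 1 f = KK p Λ f := fun f => rfl
    rw [h3] at h2
    rw [h2]
    refine Finset.sum_congr rfl fun m _ => ?_
    rw [h3, ← Ex_succ]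
  rw [h1]
  unfold Rw
  rw [Finset.sum_range_succ', add_comm]
  rfl

/-- last step decomposition -/
lemma Rw_last (N : ℕ) (g : St → ℝ) (s : St) :
    Rw p Λ (N + 1) g s = Rw p Λ N g s + Ex p Λ N (inn Λ g) s := by
  unfold Rw
  rw [Finset.sum_range_succ]

/-- **Telescoping**: if inside `Λ` the step changes `F` by `g` then `E F_N = F + E ∑ g`. -/
lemma tele (N : ℕ) {F g : St → ℝ} (h : ∀ s, s.1 ∈ Λ → stp p F s = F s + g s) (s : St) :
    Ex p Λ N F s = F s + Rw p Λ N g s := by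
  induction N generalizing s with
  | zero => simp [Ex_zero, Rw_zero]
  | succ N ih =>
    have h1 : KK p Λ F = fun s => F s + inn Λ g s := by
      funext s
      by_cases hs : s.1 ∈ Λ
      · rw [KK_in p Λ hs, inn_in Λ hs, h s hs]
      · rw [KK_out p Λ hs, inn_out Λ hs, add_zero]
    rw [Ex_succ', h1, Ex_add, Rw_last]
    simp only [ih]
    ring

end lin

section pos

variable {p : Site 2 → ℕ → ℝ} (hp0 : ∀ z i, 0 ≤ p z i) (hp1 : ∀ z i, p z i ≤ 1)
  (Λ : Finset (Site 2))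

include hp0 hp1

lemma stp_mono {f g : St → ℝ} {s : St} (h : ∀ e, f (nxt s e) ≤ g (nxt s e)) :
    stp p f s ≤ stp p g s := by
  unfold stp
  have h1 := hp0 s.1 (s.2 s.1)
  have h2 := hp1 s.1 (s.2 s.1)
  have e1 := h (0, true)
  have e2 := h (0, false)
  have e3 := h (1, true)
  have e4 := h (1, false)
  have h3 := mul_le_mul_of_nonneg_left (add_le_add e1 e2)
    (show 0 ≤ p s.1 (s.2 s.1) / 2 by linarith)
  have h4 := mul_le_mul_of_nonneg_left (add_le_add e3 e4)
    (show 0 ≤ (1 - p s.1 (s.2 s.1)) / 2 by linarith)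
  linarith

lemma KK_mono {f g : St → ℝ} (h : ∀ s, f s ≤ g s) (s : St) : KK p Λ f s ≤ KK p Λ g s := by
  by_cases hs : s.1 ∈ Λ
  · rw [KK_in p Λ hs, KK_in p Λ hs]
    exact stp_mono hp0 hp1 fun e => h _
  · rw [KK_out p Λ hs, KK_out p Λ hs]
    exact h s

lemma Ex_mono (N : ℕ) {f g : St → ℝ} (h : ∀ s, f s ≤ g s) (s : St) :
    Ex p Λ N f s ≤ Ex p Λ N g s := by
  induction N generalizing s with
  | zero => exact h s
  | succ N ih =>
    rw [Ex_succ, Ex_succ]
    exact KK_mono hp0 hp1 Λ ih s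

/-- monotonicity along an invariant property of the states -/
lemma Ex_mono_inv (N : ℕ) {f g : St → ℝ} {I : St → Prop}
    (hI : ∀ s, I s → s.1 ∈ Λ → ∀ e, I (nxt s e)) (h : ∀ s, I s → f s ≤ g s) (s : St)
    (hs : I s) : Ex p Λ N f s ≤ Ex p Λ N g s := by
  induction N generalizing s with
  | zero => exact h s hs
  | succ N ih =>
    rw [Ex_succ, Ex_succ]
    by_cases hm : s.1 ∈ Λ
    · rw [KK_in p Λ hm, KK_in p Λ hm]
      exact stp_mono hp0 hp1 fun e => ih _ (hI s hs hm e)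
    · rw [KK_out p Λ hm, KK_out p Λ hm]
      exact ih s hs

lemma Ex_nonneg (N : ℕ) {f : St → ℝ} (h : ∀ s, 0 ≤ f s) (s : St) : 0 ≤ Ex p Λ N f s := by
  have := Ex_mono hp0 hp1 Λ N (f := fun _ => 0) (g := f) h s
  rwa [Ex_const] at this

lemma Ex_le_const (N : ℕ) {f : St → ℝ} {c : ℝ} (h : ∀ s, f s ≤ c) (s : St) :
    Ex p Λ N f s ≤ c := by
  have := Ex_mono hp0 hp1 Λ N (f := f) (g := fun _ => c) h s
  rwa [Ex_const] at this

lemma Ex_abs (N : ℕ) (f : St → ℝ) (s : St) : |Ex p Λ N f s| ≤ Ex p Λ N (fun s => |f s|) s := by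
  rw [abs_le]
  constructor
  · have h1 := Ex_mono hp0 hp1 Λ N (f := fun s => -1 * |f s|) (g := f)
      (fun s => by linarith [neg_abs_le (f s)]) s
    rw [Ex_smul] at h1
    linarith
  · exact Ex_mono hp0 hp1 Λ N (fun s => le_abs_self _) s

lemma Rw_mono (N : ℕ) {f g : St → ℝ} (h : ∀ s, s.1 ∈ Λ → f s ≤ g s) (s : St) :
    Rw p Λ N f s ≤ Rw p Λ N g s := by
  unfold Rw
  refine Finset.sum_le_sum fun m _ => ?_
  refine Ex_mono hp0 hp1 Λ m (fun s => ?_) s
  by_cases hs : s.1 ∈ Λ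
  · rw [inn_in Λ hs, inn_in Λ hs]; exact h s hs
  · rw [inn_out Λ hs, inn_out Λ hs]

lemma Rw_mono_inv (N : ℕ) {f g : St → ℝ} {I : St → Prop}
    (hI : ∀ s, I s → s.1 ∈ Λ → ∀ e, I (nxt s e)) (h : ∀ s, I s → s.1 ∈ Λ → f s ≤ g s) (s : St)
    (hs : I s) : Rw p Λ N f s ≤ Rw p Λ N g s := by
  unfold Rw
  refine Finset.sum_le_sum fun m _ => ?_
  refine Ex_mono_inv hp0 hp1 Λ m hI (fun s hs => ?_) s hs
  by_cases hm : s.1 ∈ Λ
  · rw [inn_in Λ hm, inn_in Λ hm]; exact h s hs hm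
  · rw [inn_out Λ hm, inn_out Λ hm]

lemma Rw_nonneg (N : ℕ) {g : St → ℝ} (h : ∀ s, s.1 ∈ Λ → 0 ≤ g s) (s : St) :
    0 ≤ Rw p Λ N g s := by
  have h1 := Rw_mono hp0 hp1 Λ N (f := fun _ => 0) (g := g) h s
  have h2 := Rw_smul p Λ N 0 (fun _ => 0) s
  simp only [mul_zero, zero_mul] at h2
  rwa [h2] at h1

lemma Rw_abs (N : ℕ) (g : St → ℝ) (s : St) :
    |Rw p Λ N g s| ≤ Rw p Λ N (fun s => |g s|) s := by
  unfold Rw
  refine (Finset.abs_sum_le_sum_abs _ _).trans (Finset.sum_le_sum fun m _ => ?_)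
  rw [← inn_abs]
  exact Ex_abs hp0 hp1 Λ m _ s

/-- Telescoping, inequality version. -/
lemma tele_le (N : ℕ) {F g : St → ℝ} (h : ∀ s, s.1 ∈ Λ → stp p F s ≤ F s + g s) (s : St) :
    Ex p Λ N F s ≤ F s + Rw p Λ N g s := by
  induction N generalizing s with
  | zero => simp [Ex_zero, Rw_zero]
  | succ N ih =>
    have h1 : ∀ s, KK p Λ F s ≤ F s + inn Λ g s := by
      intro s
      by_cases hs : s.1 ∈ Λ
      · rw [KK_in p Λ hs, inn_in Λ hs]; exact h s hs
      · rw [KK_out p Λ hs, inn_out Λ hs, add_zero]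
    rw [Ex_succ']
    refine (Ex_mono hp0 hp1 Λ N h1 s).trans ?_
    rw [Ex_add, Rw_last]
    have := ih s
    simp only
    linarith

lemma Rw_mono_horizon {M N : ℕ} (hMN : M ≤ N) {g : St → ℝ} (h : ∀ s, s.1 ∈ Λ → 0 ≤ g s)
    (s : St) : Rw p Λ M g s ≤ Rw p Λ N g s := by
  unfold Rw
  refine Finset.sum_le_sum_of_subset_of_nonneg (Finset.range_mono hMN) fun m _ _ => ?_
  refine Ex_nonneg hp0 hp1 Λ m (fun s => ?_) s
  by_cases hs : s.1 ∈ Λ
  · rw [inn_in Λ hs]; exact h s hs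
  · rw [inn_out Λ hs]

end pos

/-! ### Partial sums and variations -/

lemma Sm_succ (a : ℝ) (p : Site 2 → ℕ → ℝ) (z : Site 2) (j : ℕ) :
    Sm a p z (j + 1) = Sm a p z j + (p z j - a) := by
  unfold Sm; rw [Finset.sum_range_succ]

lemma Vm_succ (a : ℝ) (p : Site 2 → ℕ → ℝ) (z : Site 2) (j : ℕ) :
    Vm a p z (j + 1) = Vm a p z j + |p z j - a| := by
  unfold Vm; rw [Finset.sum_range_succ]

lemma inc_self (s : St) : inc s s.1 = s.2 s.1 + 1 := by simp [inc]

lemma inc_of_ne (s : St) {z : Site 2} (h : z ≠ s.1) : inc s z = s.2 z := by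
  simp [inc, Function.update_of_ne h]

lemma nxt_snd (s : St) (e : Dir 2) : (nxt s e).2 = inc s := rfl

lemma nxt_fst (s : St) (e : Dir 2) : (nxt s e).1 = s.1 + vec e := rfl

end Pool.Agent.Helper99.EXC
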