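import Pool.Agent.Helper99.EXC.GoalsE

/-! # EXC, packet DET -/

open Finset MeasureTheory Filter
open scoped ENNReal Topology

namespace Pool.Agent.Helper99.EXC

open Pool.Agent.Helper99.ERW

lemma det_cL {a κ C : ℝ} {p : Site 2 → ℕ → ℝ} {V : Site 2 → ℝ} {Tl : Site 2 → ℕ → ℝ}
    {Si : Site 2 → ℝ} {φ : Site 2 → ℝ} {Φ : ℕ → Site 2 → ℝ} {b k1 : ℕ}
    (hc : Cook a p V Tl Si) (hs : Scl a φ Φ κ C b k1) {L : Site 2 → ℕ}
    (hL : {z | L z ≠ 0}.Finite) {k : ℕ} (hk : k1 ≤ k) :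
    |cL a p Φ b k L| ≤ C * (∑ z ∈ hL.toFinset, V z) / 4 ^ k := by
  have hC : 0 ≤ C := zero_le_one.trans hs.cone
  have hV : ∀ z, 0 ≤ V z := fun z => (hc.tl0 z 0).trans (hc.tlV z 0)
  have hSm : ∀ z j, |Sm a p z j| ≤ V z := by
    intro z j
    refine (Finset.abs_sum_le_sum_abs _ _).trans (hc.tv z j)
  have h1 : |cL a p Φ b k L| ≤ ∑ z ∈ Bx b k, (if L z ≠ 0 then C / 4 ^ k * V z else 0) := by
    unfold cL
    refine (Finset.abs_sum_le_sum_abs _ _).trans (Finset.sum_le_sum fun z _ => ?_)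
    split_ifs with h
    · rw [abs_mul]
      exact mul_le_mul (hs.h1 k hk z) (hSm z _) (abs_nonneg _) (by positivity)
    · have h0 : L z = 0 := not_not.1 h
      rw [h0]
      simp [Sm]
  refine h1.trans ?_
  rw [← Finset.sum_filter]
  calc ∑ z ∈ Bx b k with L z ≠ 0, C / 4 ^ k * V z
      ≤ ∑ z ∈ hL.toFinset, C / 4 ^ k * V z := by
        refine Finset.sum_le_sum_of_subset_of_nonneg ?_ fun z _ _ =>
          mul_nonneg (by positivity) (hV z)
        intro z hz
        rw [Finset.mem_filter] at hz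
        exact hL.mem_toFinset.2 hz.2
    _ = C * (∑ z ∈ hL.toFinset, V z) / 4 ^ k := by
        rw [← Finset.mul_sum]; ring

lemma det_large (A B : ℝ) {ε : ℝ} (hε : 0 < ε) :
    ∀ᶠ s : ℕ in atTop, A + B * Real.sqrt s ≤ ε * s := by
  have h1 : Tendsto (fun s : ℕ => (s : ℝ)) atTop atTop := tendsto_natCast_atTop_atTop
  filter_upwards [h1.eventually_ge_atTop (2 * |A| / ε), h1.eventually_ge_atTop ((2 * |B| / ε) ^ 2)]
    with s hA hB
  have hs0 : (0 : ℝ) ≤ s := Nat.cast_nonneg s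
  have h2 : |A| ≤ ε * s / 2 := by
    rw [div_le_iff₀ hε] at hA
    linarith
  have h3 : 2 * |B| / ε ≤ Real.sqrt s := by
    rw [← Real.sqrt_sq (show 0 ≤ 2 * |B| / ε by positivity)]
    exact Real.sqrt_le_sqrt hB
  have h4 : |B| * Real.sqrt s ≤ ε * s / 2 := by
    rw [div_le_iff₀ hε] at h3
    have h5 := Real.mul_self_sqrt hs0
    nlinarith [Real.sqrt_nonneg (s : ℝ)]
  have h6 : B * Real.sqrt s ≤ |B| * Real.sqrt s :=
    mul_le_mul_of_nonneg_right (le_abs_self B) (Real.sqrt_nonneg _)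
  linarith [le_abs_self A]

lemma det_geo (s k0 : ℕ) : ∑ k ∈ Finset.Ico k0 s, (1 : ℝ) / 4 ^ k ≤ 2 := by
  have h : ∀ n : ℕ, ∑ k ∈ Finset.range n, (1 : ℝ) / 4 ^ k ≤ 4 / 3 * (1 - 1 / 4 ^ n) := by
    intro n
    induction n with
    | zero => simp
    | succ n ih =>
      rw [Finset.sum_range_succ, pow_succ]
      have : (0 : ℝ) < 4 ^ n := by positivity
      have h2 : (1 : ℝ) / (4 ^ n * 4) = 1 / 4 ^ n / 4 := by field_simp
      rw [h2]
      linarith
  have h1 : ∑ k ∈ Finset.Ico k0 s, (1 : ℝ) / 4 ^ k ≤ ∑ k ∈ Finset.range s, (1 : ℝ) / 4 ^ k := by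
    refine Finset.sum_le_sum_of_subset_of_nonneg ?_ fun k _ _ => by positivity
    intro k hk
    rw [Finset.mem_Ico] at hk
    exact Finset.mem_range.2 hk.2
  have h2 := h s
  have h3 : (0 : ℝ) < 1 / 4 ^ s := by positivity
  linarith

theorem det (hTRV : TRV_stmt) (hSUM : SUM_stmt) (hUPP : UPP_stmt) (hHIT : HIT_stmt)
    (hEXI : EXI_stmt) (hDTA : DTA_stmt) : DET_stmt := by
  intro κ C b hκ hC1
  obtain ⟨C', hC', hD⟩ := hDTA κ C b
  have hC : 0 ≤ C := zero_le_one.trans hC1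
  refine ⟨κ / (8 * C' + 8), by positivity, fun M hM => ?_⟩
  have hM0 : 0 ≤ M := zero_le_one.trans hM
  set D0 : ℝ := κ + 2 * C + 3 * C * M with hD0
  have hD0p : 0 < D0 := by positivity
  have hD0κ : κ ≤ D0 := by
    rw [hD0]
    have : 0 ≤ 3 * C * M := by positivity
    linarith
  refine ⟨κ / (4 * D0), by positivity, ?_, ?_⟩
  · rw [div_le_one (by positivity)]
    linarith
  intro a p V Tl Si φ Φ k1 J hc hs hfr s0 hfin
  have hV : ∀ z, 0 ≤ V z := fun z => (hc.tl0 z 0).trans (hc.tlV z 0)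
  set K : ℝ := C * ∑ z ∈ hfin.toFinset, V z with hK
  have hK0 : 0 ≤ K := mul_nonneg hC (Finset.sum_nonneg fun z _ => hV z)
  set A0 : ℝ := C * aa V b 0 with hA0
  have haa : ∀ k, 0 ≤ aa V b k := fun k => by
    unfold aa
    exact div_nonneg (Finset.sum_nonneg fun z _ => hV z) (by positivity)
  have hA00 : 0 ≤ A0 := mul_nonneg hC (haa 0)
  set A1 : ℝ := φ s0.1 + 1 + 2 * C * ∑ z ∈ Bx b k1, V z + A0 with hA1
  -- choice of s
  have hbox : ∀ᶠ s : ℕ in atTop, s0.1 ∈ Bx b (s + 1) := by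
    obtain ⟨R, hR⟩ : ∃ R : ℕ, ∀ l, |s0.1 l| ≤ R := by
      refine ⟨(∑ l, |s0.1 l|).toNat, fun l => ?_⟩
      rw [Int.toNat_of_nonneg (Finset.sum_nonneg fun _ _ => abs_nonneg _)]
      exact Finset.single_le_sum (f := fun l => |s0.1 l|) (fun _ _ => abs_nonneg _)
        (Finset.mem_univ l)
    filter_upwards [eventually_ge_atTop R] with s hs1
    unfold Bx
    rw [mem_box]
    intro l
    refine (hR l).trans ?_
    have h1 : s < 2 ^ s := Nat.lt_two_pow_self
    have h2 : 2 ^ s ≤ b * 2 ^ (s + 1) := by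
      have := hs.bone
      calc 2 ^ s ≤ 1 * 2 ^ (s + 1) := by rw [one_mul]; exact Nat.pow_le_pow_right (by norm_num) (by omega)
        _ ≤ b * 2 ^ (s + 1) := Nat.mul_le_mul_right _ this
    exact_mod_cast (show R ≤ b * 2 ^ (s + 1) by omega)
  have hev := (((eventually_ge_atTop k1).and (eventually_ge_atTop 1)).and hbox).and
    (det_large A1 (2 * C' * K * Real.sqrt (2 + M)) (show 0 < 3 / 8 * κ by positivity))
  obtain ⟨s, ⟨hUU, hww⟩, ⟨⟨hk1s, hs1⟩, hin⟩, hlarge⟩ := (hfr.and_eventually hev).exists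
  have hs1' : (1 : ℝ) ≤ s := by exact_mod_cast hs1
  -- choice of N
  set Λ := Bx b (s + 1) with hΛ
  set E1 : ℕ → ℝ := fun N => Ex p Λ N (one Λ) s0 with hE1
  set D1 : ℝ := ∑ k ∈ Finset.Ico (max k1 1) s, C' * aa V b k with hD1
  have hE1t : Tendsto E1 atTop (𝓝 0) := by
    have h1 : ∀ N, 0 ≤ E1 N := fun N => Ex_nonneg hc.p0 hc.p1 Λ N
      (fun s => by unfold one; split_ifs <;> norm_num) s0
    have h2 : ∀ N : ℕ, (N : ℝ) * E1 N ≤ 2 * ((b * 2 ^ (s + 1) : ℕ) + 1) ^ 2 := fun N =>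
      hEXI p hc.p0 hc.p1 (b * 2 ^ (s + 1)) N s0
    refine squeeze_zero' (g := fun N : ℕ => 2 * ((b * 2 ^ (s + 1) : ℕ) + 1 : ℝ) ^ 2 / N)
      (Eventually.of_forall h1) ?_ ?_
    · filter_upwards [eventually_gt_atTop 0] with N hN
      have hN' : (0 : ℝ) < N := by exact_mod_cast hN
      rw [le_div_iff₀ hN', mul_comm]
      exact h2 N
    · exact tendsto_const_div_atTop_nhds_zero_nat _
  have hW : Tendsto (fun N => (κ * s + 2 * C) * E1 N + D1 * Real.sqrt (E1 N)) atTop (𝓝 0) := by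
    have h1 := (hE1t.const_mul (κ * s + 2 * C)).add ((hE1t.sqrt).const_mul D1)
    simpa using h1
  obtain ⟨N, hN⟩ := (hW.eventually_lt_const (show (0 : ℝ) < 1 by norm_num)).exists
  refine ⟨N, ?_⟩
  have hS := hSUM a p V Tl Si φ Φ κ C b k1 hc hs s hk1s N s0 hin
  -- the scales
  have hsum : ∑ k ∈ Finset.Ico k1 s, |Ex p Λ N (fun s => cL a p Φ b k s.2) s0 -
      cL a p Φ b k s0.2| ≤ A0 + (C' * (κ / (8 * C' + 8) * s) +
        2 * C' * K * Real.sqrt (2 + M) * Real.sqrt s + D1 * Real.sqrt (E1 N)) := by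
    have hsub : Finset.Ico k1 s ⊆ insert 0 (Finset.Ico (max k1 1) s) := by
      intro k hk
      rw [Finset.mem_Ico] at hk
      rw [Finset.mem_insert, Finset.mem_Ico]
      by_cases h0 : k = 0
      · exact Or.inl h0
      · exact Or.inr ⟨max_le hk.1 (by omega), hk.2⟩
    have hterm : ∀ k ∈ Finset.Ico (max k1 1) s, |Ex p Λ N (fun s => cL a p Φ b k s.2) s0 -
        cL a p Φ b k s0.2| ≤ C' * uu V Tl Si Φ b J k s +
          C' * K * (Real.sqrt (2 + M) * Real.sqrt s) * (1 / 4 ^ k) +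
            C' * aa V b k * Real.sqrt (E1 N) := by
      intro k hk
      rw [Finset.mem_Ico] at hk
      have hk1 : k1 ≤ k := (le_max_left _ _).trans hk.1
      have hk2 : 1 ≤ k := (le_max_right _ _).trans hk.1
      have h1 := hD a p V Tl Si φ Φ k1 hc hs k s hk1 hk2 hk.2.le J N s0
      have h2 := det_cL hc hs hfin hk1
      have h3 : Real.sqrt ((s + 1 + ww V b s) / k) ≤ Real.sqrt (2 + M) * Real.sqrt s := by
        rw [← Real.sqrt_mul (by positivity)]
        refine Real.sqrt_le_sqrt ?_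
        have hk3 : (1 : ℝ) ≤ k := by exact_mod_cast hk2
        have hw0 : 0 ≤ ww V b s := by
          unfold ww
          refine Finset.sum_nonneg fun z _ => div_nonneg (hV z) ?_
          positivity
        rw [div_le_iff₀ (by linarith)]
        have h4 : (s : ℝ) + 1 + ww V b s ≤ (2 + M) * s := by nlinarith
        have h5 : 0 ≤ (2 + M) * (s : ℝ) := by positivity
        nlinarith
      have h4 : C' * |cL a p Φ b k s0.2| * Real.sqrt ((s + 1 + ww V b s) / k) ≤
          C' * (K / 4 ^ k) * (Real.sqrt (2 + M) * Real.sqrt s) := by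
        refine mul_le_mul (mul_le_mul_of_nonneg_left h2 hC') h3 (Real.sqrt_nonneg _) (by positivity)
      have h5 : C' * (K / 4 ^ k) * (Real.sqrt (2 + M) * Real.sqrt s) =
          C' * K * (Real.sqrt (2 + M) * Real.sqrt s) * (1 / 4 ^ k) := by ring
      rw [h5] at h4
      refine h1.trans ?_
      have h6 : C' * aa V b k * Real.sqrt (Ex p (Bx b (s + 1)) N (one (Bx b (s + 1))) s0) =
          C' * aa V b k * Real.sqrt (E1 N) := rfl
      rw [h6]
      linarith
    have h0 : |Ex p Λ N (fun s => cL a p Φ b k1 s.2) s0 - cL a p Φ b k1 s0.2| ≤ C * aa V b k1 :=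
      hTRV a p V Tl Si φ Φ κ C b k1 hc hs k1 s le_rfl hk1s N s0
    have hle : ∑ k ∈ Finset.Ico k1 s, |Ex p Λ N (fun s => cL a p Φ b k s.2) s0 -
        cL a p Φ b k s0.2| ≤ A0 + ∑ k ∈ Finset.Ico (max k1 1) s,
          |Ex p Λ N (fun s => cL a p Φ b k s.2) s0 - cL a p Φ b k s0.2| := by
      by_cases hz : k1 = 0
      · subst hz
        have hin0 : (0 : ℕ) ∉ Finset.Ico (max 0 1) s := by simp
        have hIco : Finset.Ico 0 s = insert 0 (Finset.Ico (max 0 1) s) := by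
          ext k
          rw [Finset.mem_insert, Finset.mem_Ico, Finset.mem_Ico]
          omega
        rw [hIco, Finset.sum_insert hin0]
        have := h0
        rw [← hA0] at this
        linarith
      · have : max k1 1 = k1 := max_eq_left (by omega)
        rw [this]
        linarith
    refine hle.trans (add_le_add_right ?_ A0)
    refine (Finset.sum_le_sum hterm).trans ?_
    rw [Finset.sum_add_distrib, Finset.sum_add_distrib, ← Finset.mul_sum, ← Finset.mul_sum,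
      ← Finset.sum_mul]
    have h7 : C' * ∑ k ∈ Finset.Ico (max k1 1) s, uu V Tl Si Φ b J k s ≤
        C' * (κ / (8 * C' + 8) * s) := mul_le_mul_of_nonneg_left hUU hC'
    have h8 : C' * K * (Real.sqrt (2 + M) * Real.sqrt s) *
        ∑ k ∈ Finset.Ico (max k1 1) s, (1 : ℝ) / 4 ^ k ≤
        C' * K * (Real.sqrt (2 + M) * Real.sqrt s) * 2 :=
      mul_le_mul_of_nonneg_left (det_geo s _) (by positivity)
    have h9 : C' * K * (Real.sqrt (2 + M) * Real.sqrt s) * 2 =
      2 * C' * K * Real.sqrt (2 + M) * Real.sqrt s := by ring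
    linarith
  have hδ : C' * (κ / (8 * C' + 8) * s) ≤ κ / 8 * s := by
    have h1 : C' * (κ / (8 * C' + 8)) ≤ κ / 8 := by
      rw [mul_div_assoc', div_le_div_iff₀ (by positivity) (by norm_num)]
      nlinarith
    calc C' * (κ / (8 * C' + 8) * s) = C' * (κ / (8 * C' + 8)) * s := by ring
      _ ≤ κ / 8 * s := mul_le_mul_of_nonneg_right h1 (by positivity)
  have hRw : κ * s / 2 ≤ Rw p Λ N (fun s => if s.1 = 0 then 1 else 0) s0 := by
    refine le_trans ?_ hS
    have h1 : (κ * s + 2 * C) * E1 N + D1 * Real.sqrt (E1 N) < 1 := hN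
    have h2 : (κ * s + 2 * C) * Ex p (Bx b (s + 1)) N (one (Bx b (s + 1))) s0 =
      (κ * s + 2 * C) * E1 N := rfl
    rw [h2]
    linarith
  have hUP : ∀ (N : ℕ) (s1 : St), s1.1 = 0 → Rw p Λ N (fun s => if s.1 = 0 then 1 else 0) s1 ≤
      D0 * s := by
    intro N s1 h0
    refine (hUPP a p V Tl Si φ Φ κ C b k1 hc hs s hk1s N s1 h0).trans ?_
    rw [hD0]
    have h1 : 3 * C * ww V b s ≤ 3 * C * (M * s) := mul_le_mul_of_nonneg_left hww (by positivity)
    nlinarith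
  have hH := hHIT p hc.p0 hc.p1 Λ (D0 * s) (by positivity) hUP N s0
  have h3 : κ * s / 2 ≤ D0 * s * hp p N s0 := hRw.trans hH
  have h4 : κ / 2 ≤ D0 * hp p N s0 := by
    have hs0 : (0 : ℝ) < s := by linarith
    have : s * (κ / 2) ≤ s * (D0 * hp p N s0) := by linarith
    exact le_of_mul_le_mul_left this hs0
  rw [div_le_iff₀ (by positivity)]
  linarith

end Pool.Agent.Helper99.EXC
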