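import Pool.Agent.Helper99.ERW.OneStep

/-!
# Recurrence of planar balanced excited walks with square integrable total excitation: definitions

Everything here is deterministic (one fixed environment): `p z i` is the probability that the visit
number `i + 1` to the site `z` is followed by a step in the first coordinate (each sign `p z i / 2`),
`a` the reference value of `p`.  A state is the current site and the numbers of *earlier* visits of
all sites.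
-/

open Finset

namespace Pool.Agent.Helper99.EXC

open Pool.Agent.Helper99.ERW

/-- The generator of the reference walk: `a`, `1 - a` times the half second differences. -/
noncomputable def La (a : ℝ) (f : Site 2 → ℝ) (x : Site 2) : ℝ :=
  (a * secondDiff f 0 x + (1 - a) * secondDiff f 1 x) / 2

/-- Difference of the two half second differences. -/
noncomputable def Df (f : Site 2 → ℝ) (x : Site 2) : ℝ :=
  (secondDiff f 0 x - secondDiff f 1 x) / 2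

/-- The sup norm of a site. -/
noncomputable def nm (x : Site 2) : ℝ := max |(x 0 : ℝ)| |(x 1 : ℝ)|

/-- States: the current site and the local times (number of visits strictly before now). -/
abbrev St := Site 2 × (Site 2 → ℕ)

/-- The state after a step in direction `e`. -/
def nxt (s : St) (e : Dir 2) : St :=
  (s.1 + vec e, Function.update s.2 s.1 (s.2 s.1 + 1))

/-- One step of the excited walk with cookies `p`. -/
noncomputable def stp (p : Site 2 → ℕ → ℝ) (f : St → ℝ) (s : St) : ℝ :=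
  p s.1 (s.2 s.1) / 2 * (f (nxt s (0, true)) + f (nxt s (0, false))) +
    (1 - p s.1 (s.2 s.1)) / 2 * (f (nxt s (1, true)) + f (nxt s (1, false)))

/-- One step of the walk stopped when it has left `Λ`. -/
noncomputable def KK (p : Site 2 → ℕ → ℝ) (Λ : Finset (Site 2)) (f : St → ℝ) (s : St) : ℝ :=
  if s.1 ∈ Λ then stp p f s else f s

/-- `g` on the states inside `Λ`, zero outside. -/
noncomputable def inn (Λ : Finset (Site 2)) (g : St → ℝ) (s : St) : ℝ :=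
  if s.1 ∈ Λ then g s else 0

/-- Expectation of `f` of the state at time `N` (walk stopped outside `Λ`). -/
noncomputable def Ex (p : Site 2 → ℕ → ℝ) (Λ : Finset (Site 2)) (N : ℕ) (f : St → ℝ) :
    St → ℝ := (KK p Λ)^[N] f

/-- Expected reward `g` collected at the times before `N` spent in `Λ` (before the exit). -/
noncomputable def Rw (p : Site 2 → ℕ → ℝ) (Λ : Finset (Site 2)) (N : ℕ) (g : St → ℝ)
    (s : St) : ℝ := ∑ m ∈ range N, Ex p Λ m (inn Λ g) s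

/-- Probability to hit `0` at one of the times `0, ..., N` (no stopping). -/
noncomputable def hp (p : Site 2 → ℕ → ℝ) : ℕ → St → ℝ
  | 0, s => if s.1 = 0 then 1 else 0
  | N + 1, s => if s.1 = 0 then 1 else stp p (hp p N) s

/-- Excess of the current cookie. -/
noncomputable def dS (a : ℝ) (p : Site 2 → ℕ → ℝ) (s : St) : ℝ := p s.1 (s.2 s.1) - a

/-- Partial sums of a stack. -/
noncomputable def Sm (a : ℝ) (p : Site 2 → ℕ → ℝ) (z : Site 2) (j : ℕ) : ℝ :=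
  ∑ i ∈ range j, (p z i - a)

/-- Partial variations of a stack. -/
noncomputable def Vm (a : ℝ) (p : Site 2 → ℕ → ℝ) (z : Site 2) (j : ℕ) : ℝ :=
  ∑ i ∈ range j, |p z i - a|

/-- The local times one step later. -/
def inc (s : St) : Site 2 → ℕ := Function.update s.2 s.1 (s.2 s.1 + 1)

/-- Assumptions on one environment: `V z` bounds the total variation of the stack of `z`,
`Tl z j` the variation after the first `j` cookies, `Si z` is the limit of the partial sums. -/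
structure Cook (a : ℝ) (p : Site 2 → ℕ → ℝ) (V : Site 2 → ℝ) (Tl : Site 2 → ℕ → ℝ)
    (Si : Site 2 → ℝ) : Prop where
  a0 : 0 < a
  a1 : a < 1
  p0 : ∀ z i, 0 ≤ p z i
  p1 : ∀ z i, p z i ≤ 1
  tv : ∀ z j, Vm a p z j ≤ V z
  tl0 : ∀ z j, 0 ≤ Tl z j
  tlV : ∀ z j, Tl z j ≤ V z
  anti : ∀ z, Antitone (Tl z)
  lim : ∀ z j, |Si z - Sm a p z j| ≤ Tl z j

/-- The potential kernel of the reference walk, with its estimates. -/
structure Ker (a : ℝ) (φ : Site 2 → ℝ) (κ C : ℝ) : Prop where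
  kpos : 0 < κ
  cone : 1 ≤ C
  lap : ∀ x, La a φ x = if x = 0 then 1 else 0
  even : ∀ x, φ (-x) = φ x
  zero : φ 0 = 0
  log : ∀ x, |φ x - κ * Real.logb 2 (1 + nm x)| ≤ C
  d1 : ∀ x (e : Dir 2), |φ (x + vec e) - φ x| ≤ C / (1 + nm x)
  d2 : ∀ x (e f : Dir 2), |φ (x + vec e + vec f) - φ (x + vec e) - φ (x + vec f) + φ x| ≤
    C / (1 + nm x) ^ 2
  d3 : ∀ x (e f g : Dir 2), |φ (x + vec e + vec f + vec g) - φ (x + vec e + vec f) -
    φ (x + vec e + vec g) - φ (x + vec f + vec g) + φ (x + vec e) + φ (x + vec f) +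
    φ (x + vec g) - φ x| ≤ C / (1 + nm x) ^ 3
  form : ∀ (B : Finset (Site 2)) (f g : Site 2 → ℝ),
    |∑ z ∈ B, ∑ y ∈ B, f z * Df φ (y - z) * g y| ≤
      C * Real.sqrt (∑ z ∈ B, f z ^ 2) * Real.sqrt (∑ y ∈ B, g y ^ 2)

/-- The boxes of the dyadic scales. -/
noncomputable def Bx (b k : ℕ) : Finset (Site 2) := box 2 (b * 2 ^ k)

/-- The piece of scale `k` of `Df φ`. -/
noncomputable def hk (Φ : ℕ → Site 2 → ℝ) (k : ℕ) (x : Site 2) : ℝ :=
  Df (Φ k) x - Df (Φ (k + 1)) x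

/-- The potential kernel `φ` with its truncations `Φ k` at the dyadic scales `k ≥ k1`. -/
structure Scl (a : ℝ) (φ : Site 2 → ℝ) (Φ : ℕ → Site 2 → ℝ) (κ C : ℝ) (b k1 : ℕ) : Prop where
  kpos : 0 < κ
  cone : 1 ≤ C
  bone : 1 ≤ b
  lap : ∀ x, La a φ x = if x = 0 then 1 else 0
  even : ∀ x, φ (-x) = φ x
  zero : φ 0 = 0
  plow : ∀ x, -C ≤ φ x
  hbd : ∀ x, |Df φ x| ≤ C / (1 + nm x) ^ 2
  form : ∀ (B : Finset (Site 2)) (f g : Site 2 → ℝ),
    |∑ z ∈ B, ∑ y ∈ B, f z * Df φ (y - z) * g y| ≤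
      C * Real.sqrt (∑ z ∈ B, f z ^ 2) * Real.sqrt (∑ y ∈ B, g y ^ 2)
  ge : ∀ k x, φ x ≤ Φ k x
  low : ∀ k x, κ * k ≤ Φ k x
  mu0 : ∀ k, k1 ≤ k → ∀ x, 0 ≤ La a (Φ k) x
  mu1 : ∀ k, k1 ≤ k → ∀ x, La a (Φ k) x ≤ C / 4 ^ k
  muS : ∀ k, k1 ≤ k → ∀ x, x ∉ Bx b k → La a (Φ k) x = 0
  out : ∀ k, k1 ≤ k → ∀ x, x ∉ Bx b k → Φ k x = φ x
  dout : ∀ k, k1 ≤ k → ∀ x, x ∉ Bx b k → Df (Φ k) x = Df φ x
  near : ∀ k, k1 ≤ k → ∀ x ∈ Bx b k, |Φ k x - κ * k| ≤ C
  up : ∀ k s, k1 ≤ k → k ≤ s → ∀ x ∈ Bx b (s + 2), Φ k x ≤ κ * s + C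
  psiA : ∀ k, k1 ≤ k → ∀ z ∈ Bx b k, ∀ x, |φ (x - z) - Φ k x| ≤ C * (k + 1)
  psiO : ∀ k, k1 ≤ k → ∀ z ∈ Bx b k, ∀ x, x ∉ Bx b (k + 1) → |φ (x - z) - Φ k x| ≤ C
  psi2 : ∀ k, k1 ≤ k → ∀ x, ∑ z ∈ Bx b k, (φ (x - z) - Φ k x) ^ 2 ≤ C * 4 ^ k
  dphi1 : ∀ k, k1 ≤ k → ∀ x, |Df (Φ k) x| ≤ C / 4 ^ k
  dphi2 : ∀ k, k1 ≤ k → ∀ x, |Df (Φ k) x| ≤ C / (1 + nm x) ^ 2
  far : ∀ k, k1 ≤ k → ∀ z ∈ Bx b k, ∀ y, y ∉ Bx b (k + 1) →
    |Df φ (y - z) - Df (Φ k) y| ≤ C * 2 ^ k / (1 + nm y) ^ 3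
  hS : ∀ k, k1 ≤ k → ∀ x, x ∉ Bx b k → hk Φ k x = 0
  h1 : ∀ k, k1 ≤ k → ∀ x, |hk Φ k x| ≤ C / 4 ^ k
  hL : ∀ k, k1 ≤ k → ∀ x y, |hk Φ k x - hk Φ k y| ≤ C / 8 ^ k * nm (x - y)
  h0 : ∀ k, k1 ≤ k → ∑ x ∈ Bx b k, hk Φ k x = 0

/-- The charge of scale `k` collected with the local times `L`. -/
noncomputable def cL (a : ℝ) (p : Site 2 → ℕ → ℝ) (Φ : ℕ → Site 2 → ℝ) (b k : ℕ)
    (L : Site 2 → ℕ) : ℝ := ∑ z ∈ Bx b k, hk Φ k z * Sm a p z (L z)

/-- The indicator of the states inside `Λ` (as a real function). -/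
noncomputable def one (Λ : Finset (Site 2)) (s : St) : ℝ := if s.1 ∈ Λ then 1 else 0

/-- The increment of the partial sum of `z` since the local times `L0`, one step after `s`. -/
noncomputable def DS (a : ℝ) (p : Site 2 → ℕ → ℝ) (L0 : Site 2 → ℕ) (s : St) (z : Site 2) : ℝ :=
  Sm a p z (inc s z) - Sm a p z (L0 z)

/-- The final charge of scale `k`. -/
noncomputable def ci (Φ : ℕ → Site 2 → ℝ) (Si : Site 2 → ℝ) (b k : ℕ) : ℝ :=
  ∑ z ∈ Bx b k, hk Φ k z * Si z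

/-- Averages of the environment: first and second moment of `V` at scale `k`. -/
noncomputable def aa (V : Site 2 → ℝ) (b k : ℕ) : ℝ := (∑ z ∈ Bx b (k + 1), V z) / 4 ^ k

noncomputable def bb (V : Site 2 → ℝ) (b k : ℕ) : ℝ := (∑ z ∈ Bx b (k + 1), V z ^ 2) / 4 ^ k

/-- Averages over the larger scales up to `s`. -/
noncomputable def tt (V : Site 2 → ℝ) (b k s : ℕ) : ℝ :=
  ∑ y ∈ Bx b (s + 1) \ Bx b (k + 1), 2 ^ k / (1 + nm y) ^ 3 * V y

noncomputable def ww (V : Site 2 → ℝ) (b s : ℕ) : ℝ :=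
  ∑ z ∈ Bx b (s + 1), V z / (1 + nm z) ^ 2

/-- Average of the tails after `J` cookies. -/
noncomputable def ee (Tl : Site 2 → ℕ → ℝ) (b J k : ℕ) : ℝ :=
  (∑ z ∈ Bx b (k + 1), Tl z J) / 4 ^ k

noncomputable def qq (V : Site 2 → ℝ) (b k s : ℕ) : ℝ := 1 + bb V b k + tt V b k s ^ 2

end Pool.Agent.Helper99.EXC
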