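import Pool.Agent.Helper99.EXC.Basic
import Pool.Agent.Helper99.ERW.PlaneRecur

/-! # EXC: definitions for the random environment and the transfer to the walk -/

open Finset MeasureTheory Filter
open scoped ENNReal

namespace Pool.Agent.Helper99.EXC

open Pool.Agent.Helper99.ERW

/-- Horizontal probabilities of an environment. -/
def pw (ω : Env 2) : Site 2 → ℕ → ℝ := fun z i => 2 * ω z (0, true) i

/-- Total variation of a stack around `a`. -/
noncomputable def Vs (a : ℝ) (σ : Stack 2) : ℝ := (∑' i, ENNReal.ofReal |2 * σ (0, true) i - a|).toReal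

/-- Variation after the first `j` cookies. -/
noncomputable def Ts (a : ℝ) (σ : Stack 2) (j : ℕ) : ℝ :=
  (∑' i, ENNReal.ofReal |2 * σ (0, true) (i + j) - a|).toReal

/-- Limit of the partial sums of a stack. -/
noncomputable def Ss (a : ℝ) (σ : Stack 2) : ℝ :=
  (∑' i, ENNReal.ofReal (2 * σ (0, true) i - a)).toReal -
    (∑' i, ENNReal.ofReal (a - 2 * σ (0, true) i)).toReal

/-- Bound for the anisotropy of scale `k`. -/
noncomputable def uu (V : Site 2 → ℝ) (Tl : Site 2 → ℕ → ℝ) (Si : Site 2 → ℝ)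
    (Φ : ℕ → Site 2 → ℝ) (b J k s : ℕ) : ℝ :=
  Real.sqrt ((((1 + J) * qq V b k s + ee Tl b J k * (s + 1 + ww V b s)) * aa V b k + qq V b k s +
    ci Φ Si b k ^ 2 * (s + 1 + ww V b s)) / k)

/-- Sum of the bounds over the scales. -/
noncomputable def UU (V : Site 2 → ℝ) (Tl : Site 2 → ℕ → ℝ) (Si : Site 2 → ℝ)
    (Φ : ℕ → Site 2 → ℝ) (b J k1 s : ℕ) : ℝ := ∑ k ∈ Finset.Ico (max k1 1) s, uu V Tl Si Φ b J k s

/-- The scale `s` is good for the environment `ω`. -/
def GS (a : ℝ) (Φ : ℕ → Site 2 → ℝ) (b k1 J : ℕ) (δ M : ℝ) (s : ℕ) (ω : Env 2) : Prop :=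
  UU (fun z => Vs a (ω z)) (fun z => Ts a (ω z)) (fun z => Ss a (ω z)) Φ b J k1 s ≤ δ * s ∧
    ww (fun z => Vs a (ω z)) b s ≤ M * s

/-- The environment has finite total variation at each site and infinitely many good scales. -/
def GE (a : ℝ) (Φ : ℕ → Site 2 → ℝ) (b k1 J : ℕ) (δ M : ℝ) : Set (Env 2) :=
  {ω | (∀ z, ∑' i, ENNReal.ofReal |2 * ω z (0, true) i - a| ≠ ∞) ∧
    (∃ᶠ s in atTop, GS a Φ b k1 J δ M s ω)}

/-- The state of the walk seen from the centre `y`. -/
def stt {Ω : Type*} (X : ℕ → Ω → Site 2) (y : Site 2) (n : ℕ) (w : Ω) : St :=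
  (X n w - y, fun z => visits (fun j => X j w) n (z + y))

end Pool.Agent.Helper99.EXC
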