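import Pool.Agent.Helper99.ERW.OneStep

/-! # The canonical version of an excited random walk (to move to the lowest universe) -/

open MeasureTheory ProbabilityTheory Filter

namespace Pool.Agent.Helper99.EXC

open Pool.Agent.Helper99.ERW

variable {d : ℕ} {Ω : Type*} [mΩ : MeasurableSpace Ω]

/-- The environment and the whole path. -/
def cmap (env : Ω → Env d) (X : ℕ → Ω → Site d) (w : Ω) : Env d × (ℕ → Site d) :=
  (env w, fun n => X n w)

omit mΩ in
theorem cmap_preimage (env : Ω → Env d) (X : ℕ → Ω → Site d) (n : ℕ)
    {s : Set (Env d × (ℕ → Site d))}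
    (hs : MeasurableSet[hist (Prod.fst : Env d × (ℕ → Site d) → Env d)
      (fun n q => q.2 n) n] s) :
    MeasurableSet[hist env X n] (cmap env X ⁻¹' s) := by
  have h : hist (Prod.fst : Env d × (ℕ → Site d) → Env d) (fun n q => q.2 n) n ≤
      (hist env X n).map (cmap env X) := by
    refine sup_le ?_ (iSup₂_le fun k hk => ?_)
    · rintro _ ⟨t, ht, rfl⟩
      exact measurable_env_hist env X n ht
    · rintro _ ⟨t, ht, rfl⟩
      have hk' : k ≤ n := by
        have := Finset.mem_range.1 hk
        omega
      exact measurable_walk_hist env X hk' ht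
  exact h s hs

theorem canonical {P : Measure (Env d)} {μ : Measure Ω} [IsProbabilityMeasure μ]
    {env : Ω → Env d} {X : ℕ → Ω → Site d} (h : IsERW P μ env X)
    (hC : ∀ᵐ ω ∂P, IsCookieEnv ω) :
    IsERW P (μ.map (cmap env X)) (Prod.fst : Env d × (ℕ → Site d) → Env d)
      (fun n q => q.2 n) := by
  have hF : Measurable (cmap env X) :=
    h.measurable_env.prodMk (measurable_pi_lambda _ fun n => h.measurable_walk n)
  have : IsProbabilityMeasure (μ.map (cmap env X)) :=
    Measure.isProbabilityMeasure_map hF.aemeasurable
  have hwalk : ∀ n, Measurable (fun q : Env d × (ℕ → Site d) => q.2 n) := fun n =>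
    (measurable_pi_apply n).comp measurable_snd
  have hhist : ∀ n, hist (Prod.fst : Env d × (ℕ → Site d) → Env d) (fun n q => q.2 n) n ≤
      (inferInstance : MeasurableSpace (Env d × (ℕ → Site d))) := by
    intro n
    refine sup_le measurable_fst.comap_le (iSup₂_le fun k _ => (hwalk k).comap_le)
  refine ⟨measurable_fst, hwalk, ?_, ?_, ?_⟩
  · rw [Measure.map_map measurable_fst hF]
    exact h.law_env
  · have h0 : MeasurableSet {q : Env d × (ℕ → Site d) | q.2 0 = 0} :=
      (hwalk 0) (measurableSet_singleton (0 : Site d))
    exact (ae_map_iff hF.aemeasurable h0).2 h.start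
  · intro n e
    have hstep : MeasurableSet {q : Env d × (ℕ → Site d) | q.2 (n + 1) = q.2 n + vec e} :=
      measurableSet_eq_fun (hwalk (n + 1)) ((hwalk n).add_const _)
    have hgm := measurable_cookie_hist (Prod.fst : Env d × (ℕ → Site d) → Env d)
      (fun n q => q.2 n) (le_refl n) e
    have hgm' := hgm.mono (hhist n) le_rfl
    have hint : Integrable (fun q : Env d × (ℕ → Site d) =>
        q.1 (q.2 n) e (pastVisits (fun k => q.2 k) n)) (μ.map (cmap env X)) := by
      rw [integrable_map_measure hgm'.aestronglyMeasurable hF.aemeasurable]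
      exact h.integrable_cookie hC n e
    symm
    refine ae_eq_condExp_of_forall_setIntegral_eq (hhist n)
      ((integrable_const (1 : ℝ)).indicator hstep) (fun s _ _ => hint.integrableOn) ?_
      hgm.aestronglyMeasurable
    intro s hs _
    have hs' := hhist n s hs
    rw [setIntegral_map hs' hgm'.aestronglyMeasurable hF.aemeasurable,
      setIntegral_map hs' (stronglyMeasurable_const.indicator hstep).aestronglyMeasurable
        hF.aemeasurable]
    have hst : MeasurableSet {w | X (n + 1) w = X n w + vec e} := h.measurableSet_stepSet n e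
    have hi1 : Integrable (Set.indicator {w | X (n + 1) w = X n w + vec e}
        (fun _ => (1 : ℝ))) μ := (integrable_const (1 : ℝ)).indicator hst
    have h1 := setIntegral_condExp (h.hist_le n) hi1 (cmap_preimage env X n hs)
    rw [setIntegral_congr_ae (h.hist_le n _ (cmap_preimage env X n hs))
      (Filter.Eventually.mono (h.step n e) fun w hw _ => hw)] at h1
    exact h1

theorem recurrent_of_canonical {P : Measure (Env d)} {μ : Measure Ω}
    {env : Ω → Env d} {X : ℕ → Ω → Site d} (h : IsERW P μ env X)
    (hr : Recurrent (μ.map (cmap env X)) (fun n (q : Env d × (ℕ → Site d)) => q.2 n)) :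
    Recurrent μ X := by
  have hF : Measurable (cmap env X) :=
    h.measurable_env.prodMk (measurable_pi_lambda _ fun n => h.measurable_walk n)
  have := ae_of_ae_map hF.aemeasurable hr
  exact this

end Pool.Agent.Helper99.EXC
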