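import Pool.Agent.Helper99.EXC.Main
import Pool.Agent.Helper99.EXC.Lift
import Pool.Agent.Helper99.EXC.DET
import Pool.Agent.Helper77.EXC.CUR
import Pool.Agent.Helper13.EXC.DTA
import Pool.Agent.Helper2.EXC.MET
import Pool.Agent.Helper83.EXC.HPL
import Pool.Agent.Helper49.EXC.ENV

/-! # EXC: final theorem -/

open Finset MeasureTheory ProbabilityTheory Filter
open scoped ENNReal

namespace Pool.Agent.Helper99.EXC

open Pool.Agent.Helper99.ERW

theorem cur : CUR_stmt := Pool.Agent.Helper77.EXC.CUR ltm (Pool.Agent.Helper2.EXC.GLA ltm)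

theorem dta : DTA_stmt := Pool.Agent.Helper13.EXC.DTA (sqb cur)

theorem det_all : DET_stmt :=
  det (Pool.Agent.Helper49.EXC.TRV ltm) (Pool.Agent.Helper5.EXC.SUM ltm)
    (Pool.Agent.Helper55.EXC.UPP ltm ybd) Pool.Agent.Helper61.EXC.HIT
    Pool.Agent.Helper19.EXC.EXI dta

theorem sta : STA_stmt := Pool.Agent.Helper56.EXC.STA

theorem met : MET_stmt := Pool.Agent.Helper2.EXC.MET sta

theorem gme : GME_stmt := Pool.Agent.Helper35.EXC.GME

theorem tjz : TJZ_stmt := Pool.Agent.Helper35.EXC.TJZ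

theorem env_all : ENV_stmt :=
  Pool.Agent.Helper49.EXC.ENV gme sta met tjz Pool.Agent.Helper61.EXC.LAT

theorem pos : POS_stmt := Pool.Agent.Helper61.EXC.POS gme tjz env_all

theorem hgl : HGL_stmt :=
  Pool.Agent.Helper39.EXC.HGL (Pool.Agent.Helper83.EXC.HPL Pool.Agent.Helper83.EXC.ONE)

theorem asm : ASM_stmt :=
  Pool.Agent.Helper50.EXC.ASM det_all Pool.Agent.Helper86.EXC.COK gme tjz pos hgl
    Pool.Agent.Helper37.EXC.IOE

theorem recurrent_total {Ω : Type*} [MeasurableSpace Ω] (P : Measure (Env 2))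
    [IsProbabilityMeasure P] (μ : Measure Ω) [IsProbabilityMeasure μ] (env : Ω → Env 2)
    (X : ℕ → Ω → Site 2) (hX : IsERW P μ env X)
    (hcookie : ∀ᵐ ω ∂P, IsCookieEnv ω) (hbal : ∀ᵐ ω ∂P, IsBalanced ω) (hSE : SE P)
    (a : ℝ) (ha0 : 0 < a) (ha1 : a < 1) (W : Stack 2 → ℝ)
    (hW2 : MemLp (fun ω : Env 2 => W (ω 0)) 2 P)
    (hW : ∀ᵐ ω ∂P, ∀ j : ℕ, ∑ i ∈ range j, |2 * ω 0 (0, true) i - a| ≤ W (ω 0)) :
    Recurrent μ X := by
  refine recurrent_of_canonical hX ?_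
  have hF : Measurable (cmap env X) :=
    hX.measurable_env.prodMk (measurable_pi_lambda _ fun n => hX.measurable_walk n)
  have : IsProbabilityMeasure (μ.map (cmap env X)) :=
    Measure.isProbabilityMeasure_map hF.aemeasurable
  exact asm _ _ P _ _ _ (canonical hX hcookie) hcookie hbal hSE a W ha0 ha1 hW2 hW
    (exists_scl a ha0 ha1)

end Pool.Agent.Helper99.EXC
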