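import Pool.Agent.Helper99.EXC.Basic

/-!
# EXC, part D: the walk in one fixed environment (exact statements of the packets)

All rules for `stp KK Ex Rw inn` (linearity, monotonicity, `Ex_succ`, `Rw_succ`, `Rw_last`, `tele`,
`tele_le`, `Ex_mono_inv`, `Rw_mono_inv`, `stp_pos`, `stp_pos'`, `inc_self`, `inc_of_ne`, `Sm_succ`,
`Vm_succ` ...) are in `Pool/Agent/Helper99/EXC/Basic.lean`.
Notation of the proofs: `s = (x, L)` a state, `dS = p x (L x) - a`, `μ_k = La a (Φ k)`,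
`h_k = hk Φ k`, `h = Df φ`, `L⁺ = inc s` (local times one step later, the same for the four possible
steps), `1_Λ = one Λ`, `E = Ex p Λ N`, `R = Rw p Λ N`.
-/

open Finset

namespace Pool.Agent.Helper99.EXC

open Pool.Agent.Helper99.ERW

/-- PACKET LTM (local time identities).  (1) `F s = ∑_{z∈Λ} w z Sm z (s.2 z)`: for `s.1 = x ∈ Λ` all four
successors have local times `inc s`, only the term `z = x` changes, by `w x dS` (`Sm_succ`): `tele`.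
(2) `F s = ∑_{z∈Λ} |w z| Vm z (s.2 z)` satisfies `stp F = F + |w x| |dS|`; `tele`, and
`0 ≤ F ≤ ∑ |w z| V z` everywhere (`Ex_le_const`).  (3) `F s = ∑_{z∈Λ} u z min (s.2 z) J` increases by
`u x` if `L x < J` and by `0` otherwise; `0 ≤ F ≤ J ∑ u`. -/
def LTM_stmt : Prop := ∀ (a : ℝ) (p : Site 2 → ℕ → ℝ) (V : Site 2 → ℝ) (Tl : Site 2 → ℕ → ℝ)
  (Si : Site 2 → ℝ), Cook a p V Tl Si → ∀ (Λ : Finset (Site 2)) (N : ℕ) (s0 : St),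
  (∀ w : Site 2 → ℝ, Ex p Λ N (fun s => ∑ z ∈ Λ, w z * Sm a p z (s.2 z)) s0 =
    ∑ z ∈ Λ, w z * Sm a p z (s0.2 z) + Rw p Λ N (fun s => w s.1 * dS a p s) s0) ∧
  (∀ w : Site 2 → ℝ, Rw p Λ N (fun s => |w s.1| * |dS a p s|) s0 ≤ ∑ z ∈ Λ, |w z| * V z) ∧
  (∀ (u : Site 2 → ℝ) (J : ℕ), (∀ z, 0 ≤ u z) →
    Rw p Λ N (fun s => u s.1 * (if s.2 s.1 < J then 1 else 0)) s0 ≤ J * ∑ z ∈ Λ, u z)

/-- PACKET YBD (may assume LTM).  `Λ = Bx b (s + 1)`.  If `s0.1 ∉ Λ` the left side is `0` (`Rw_out`).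
Otherwise `tele` for `F = Φ k ∘ pos` (`stp_pos`): `R[μ_k] = E[Φ_k] - Φ_k(x0) - R[dS Df Φ_k]`.  All
positions up to time `N` are in `Bx b (s + 2)` (invariant; a step from `Bx b (s+1)` stays in
`Bx b (s+2)`), so `E[Φ_k] ≤ κ s + C` (`up`, `Ex_mono_inv`); `Φ_k(x0) ≥ κ k` (`low`);
`|R[dS Df Φ_k]| ≤ ∑_{z∈Λ} |Df Φ_k z| V z ≤ C ww` (LTM (2), `dphi2`). -/
def YBD_stmt : Prop := ∀ (a : ℝ) (p : Site 2 → ℕ → ℝ) (V : Site 2 → ℝ) (Tl : Site 2 → ℕ → ℝ)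
  (Si : Site 2 → ℝ) (φ : Site 2 → ℝ) (Φ : ℕ → Site 2 → ℝ) (κ C : ℝ) (b k1 : ℕ),
  Cook a p V Tl Si → Scl a φ Φ κ C b k1 → ∀ (k s : ℕ), k1 ≤ k → k ≤ s → ∀ (N : ℕ) (s0 : St),
  Rw p (Bx b (s + 1)) N (fun s => La a (Φ k) s.1) s0 ≤ κ * (s - k) + C + C * ww V b s

/-- PACKET GLA (may assume LTM).  Key comparison of occupation times with the occupation of scale `k`.
`Λ = Bx b (s + 1)`; if `s0.1 ∉ Λ` both `R` vanish.  Let `f x = ∑_{z∈B} w z (φ (x - z) - Φ_k x)`,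
`B = Bx b k ⊆ Λ`.  By `Scl.lap`, `La a f x = w x [x∈B] - (∑_B w) μ_k x` and
`Df f y = ∑_{z∈B} w z η(z,y)`, `η(z,y) = Df φ (y - z) - Df Φ_k y`.  `tele` (`stp_pos`):
`R[w] - (∑ w) R[μ_k] = E[f] - f(x0) - R[dS Df f]`.
* `|f| ≤ (∑|w|) C` outside `Bx b (k+1)` (`psiO`), in particular outside `Λ`, and
  `≤ (∑|w|) C (k+1)` everywhere (`psiA`): `|E[f]| ≤ C (∑|w|) (1 + (k+1) E[1_Λ])`,
  `∑ |w| ≤ W aa`.
* `|f(x0)| ≤ √(∑_B w²) √(∑_B (φ(x0 - z) - Φ_k x0)²) ≤ (W/4^k) √(∑_{Bx b (k+1)} V²) √(C 4^k) ≤ C W √bb`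
  (`psi2`, Cauchy–Schwarz) `≤ C W qq`.
* `R[dS Df f] = ∑_{y∈Λ} Df f y · F y` with `F y = E[Sm y (L y)] - Sm y (L0 y)`, `|F y| ≤ V y`
  (LTM (1) with `w = Df f` (and with indicators, or linearity of `Ex`, `Ex_sum`); two partial sums of a stack
  differ by at most the total variation).  For `y ∉ Bx b (k+1)`: `far` and `∑|w| ≤ W aa` give
  `≤ C W aa tt`.  For `y ∈ Bx b (k+1)`: the part `- Df Φ_k y` gives `≤ W aa · C aa` (`dphi1`), the part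
  `Df φ (y - z)` is bounded by `form` on the finset `Bx b (k+1)` (w extended by zero):
  `≤ C √(∑ w²) √(∑ V²) ≤ C W bb`.
Finally `aa² ≤ C'(b) bb` (Cauchy–Schwarz, `card (Bx b (k+1)) ≤ (4 b + 1)² 4^k`), so `aa ≤ C' qq`, `aa² ≤ C' qq`,
`aa tt ≤ C' qq`, `√bb ≤ qq`. -/
def GLA_stmt : Prop := ∀ (C : ℝ) (b : ℕ), ∃ C' : ℝ, 0 ≤ C' ∧ ∀ (a : ℝ) (p : Site 2 → ℕ → ℝ)
  (V : Site 2 → ℝ) (Tl : Site 2 → ℕ → ℝ) (Si : Site 2 → ℝ) (φ : Site 2 → ℝ)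
  (Φ : ℕ → Site 2 → ℝ) (κ : ℝ) (k1 : ℕ), Cook a p V Tl Si → Scl a φ Φ κ C b k1 →
  ∀ (k s : ℕ), k1 ≤ k → k ≤ s → ∀ (N : ℕ) (s0 : St) (w : Site 2 → ℝ) (W : ℝ), 0 ≤ W →
  (∀ z ∈ Bx b k, |w z| ≤ W * V z / 4 ^ k) → (∀ z, z ∉ Bx b k → w z = 0) →
  |Rw p (Bx b (s + 1)) N (fun s => w s.1) s0 - (∑ z ∈ Bx b k, w z) *
      Rw p (Bx b (s + 1)) N (fun s => La a (Φ k) s.1) s0| ≤
    C' * W * qq V b k s +
      C' * W * (k + 1) * aa V b k * Ex p (Bx b (s + 1)) N (one (Bx b (s + 1))) s0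

/-- PACKET BIL (may assume LTM).  Dynkin's formula with the kernel centred at the moving particle.
`Λ = Bx b (s + 1)`, `ψ(z,x) = φ (x - z) - Φ_k x`, and the function of the state
`F s = ∑_{z∈B} h_k z (Sm z (s.2 z) - Sm z (s0.2 z)) ψ(z, s.1)`, `B = Bx b k`.  For `s.1 = x ∈ Λ` (`stp_pos'`;
after the step the local times are `inc s`):
`stp F - F = h_k x dS ψ(x,x) + ∑_{z∈B} h_k z DS z (La_x ψ(z,x) + dS Df_x ψ(z,x))`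
with `La_x ψ(z,x) = [x = z] - μ_k x`, `Df_x ψ(z,x) = Df φ (x - z) - Df Φ_k x`, `DS = DS a p s0.2 s`; moreover
`∑_{z∈B} h_k z DS z = cL (inc s) - cL s0.2` and `ψ(x,x) = φ 0 - Φ_k x = -κ k - v x`, `|v x| ≤ C` on `B`
(`zero`, `near`; `h_k = 0` outside `B`, `hS`).  So
`E[F] - F s0 = -κ k R[h_k dS] - R[v h_k dS] + R[h_k x DS x] - R[μ_k (cL (inc s) - cL s0.2)] + R[dS ∑ h_k z DS z η]`,
`F s0 = 0`, `R[h_k dS] = E[cL] - cL s0.2` (LTM (1), `B ⊆ Λ`), `|R[v h_k dS]| ≤ C ∑_B |h_k| V ≤ C² aa`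
(LTM (2), `h1`) and `|F s| ≤ ∑_B |h_k z| V z |ψ(z, s.1)| ≤ C aa (C + C (k+1) 1_Λ)` (`psiO`, `psiA`). -/
def BIL_stmt : Prop := ∀ (C : ℝ) (b : ℕ), ∃ C' : ℝ, 0 ≤ C' ∧ ∀ (a : ℝ) (p : Site 2 → ℕ → ℝ)
  (V : Site 2 → ℝ) (Tl : Site 2 → ℕ → ℝ) (Si : Site 2 → ℝ) (φ : Site 2 → ℝ)
  (Φ : ℕ → Site 2 → ℝ) (κ : ℝ) (k1 : ℕ), Cook a p V Tl Si → Scl a φ Φ κ C b k1 →
  ∀ (k s : ℕ), k1 ≤ k → k ≤ s → ∀ (N : ℕ) (s0 : St), s0.1 ∈ Bx b (s + 1) →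
  |κ * k * (Ex p (Bx b (s + 1)) N (fun s => cL a p Φ b k s.2) s0 - cL a p Φ b k s0.2) +
      Rw p (Bx b (s + 1)) N
        (fun s => La a (Φ k) s.1 * (cL a p Φ b k (inc s) - cL a p Φ b k s0.2)) s0 -
      Rw p (Bx b (s + 1)) N (fun s => hk Φ k s.1 * DS a p s0.2 s s.1) s0 -
      Rw p (Bx b (s + 1)) N (fun s => dS a p s * ∑ z ∈ Bx b k, hk Φ k z * DS a p s0.2 s z *
        (Df φ (s.1 - z) - Df (Φ k) s.1)) s0| ≤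
    C' * aa V b k +
      C' * (k + 1) * aa V b k * Ex p (Bx b (s + 1)) N (one (Bx b (s + 1))) s0

/-- PACKET NEA (may assume LTM).  Symmetrisation of the time ordered double sum: no logarithm.
`Λ = Bx b (s+1) ⊇ B' = Bx b (k+1) ⊇ B = Bx b k`, `h = Df φ` even, `L0 = s0.2`, `D z = DS a p L0 s z` (the increment one step
later), `D° z = Sm z (s.2 z) - Sm z (L0 z)`; `D = D°` except at `x = s.1` where `D x = D° x + dS`; both are bounded by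
`V z` on states whose local times are `≥ L0`... in fact for all `i j`: `|Sm z i - Sm z j| ≤ V z` (partial variation).
* Far part and smooth part: for `x ∉ B'`, `|∑_B h_k z D z η(z,x)| ≤ (∑_B |h_k| V) C 2^k/(1+nm x)^3` (`far`); for
  `x ∈ B'` the part with `- Df Φ_k x` is `≤ (∑_B |h_k| V) C/4^k` (`dphi1`).  LTM (2) on these weights:
  total `≤ C aa tt + C aa²`.
* Near part: `R[1_{B'}(x) dS ∑_{z∈B} h_k z h(x - z) D z]` (extend the sum to `z ∈ B'`, `h_k = 0` off `B`).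
  Write `h_k z = (h_k z + h_k x)/2 + (h_k z - h_k x)/2`.  The second part is at most
  `R[1_{B'} |dS| ∑_{z∈B'} |h_k z - h_k x| |h(x - z)| V z] ≤ ∑_{x,z∈B'} V x V z C²/8^k nm(x-z)/(1+nm(x-z))²`
  (`hL`, `hbd`, LTM (2)) `≤ C²/8^k ∑_{x∈B'} V x² ∑_{u∈Bx b (k+2)} 1/(1+nm u) ≤ C' bb` (`2 V x V z ≤ V x² + V z²`;
  `∑_{u∈box 2 m} 1/(1+nm u) ≤ 20 (m+1)`).
* Symmetric part: `Q s = (1/2) ∑_{z,y∈B'} H(z,y) D° z D° y`, `H(z,y) = (h_k z + h_k y)/2 · h(y - z)` symmetric.  For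
  `s.1 = x ∈ Λ`: after the step `D°` becomes `D = D° + dS δ_x`, so `stp Q - Q = 0` if `x ∉ B'` and
  `= dS ∑_z H(z,x) D° z + (1/2) H(x,x) dS² = dS ∑_z H(z,x) D z - (1/2) h_k x h 0 dS²` if `x ∈ B'`.  `tele`,
  `Q s0 = 0`, and `|Q s| = (1/2) |∑_{z,y∈B'} h_k z D° z h(y-z) D° y| ≤ (C/2) √(∑ (h_k D°)²) √(∑_{B'} D°²) ≤ C' bb`
  (`form`, evenness, `h1`); the diagonal `R[|h_k| |h 0| dS²] ≤ C ∑_B |h_k| V ≤ C' aa` (`|dS| ≤ 1`, LTM (2)). -/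
def NEA_stmt : Prop := ∀ (C : ℝ) (b : ℕ), ∃ C' : ℝ, 0 ≤ C' ∧ ∀ (a : ℝ) (p : Site 2 → ℕ → ℝ)
  (V : Site 2 → ℝ) (Tl : Site 2 → ℕ → ℝ) (Si : Site 2 → ℝ) (φ : Site 2 → ℝ)
  (Φ : ℕ → Site 2 → ℝ) (κ : ℝ) (k1 : ℕ), Cook a p V Tl Si → Scl a φ Φ κ C b k1 →
  ∀ (k s : ℕ), k1 ≤ k → k ≤ s → ∀ (N : ℕ) (s0 : St), s0.1 ∈ Bx b (s + 1) →
  |Rw p (Bx b (s + 1)) N (fun s => dS a p s * ∑ z ∈ Bx b k, hk Φ k z * DS a p s0.2 s z *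
        (Df φ (s.1 - z) - Df (Φ k) s.1)) s0| ≤ C' * qq V b k s

/-- PACKET CUR (may assume LTM, GLA).  The current partial sum may be replaced by its limit.
`R[h_k x DS x] = R[h_k x (Si x - Sm x (L0 x))] - R[h_k x (Si x - Sm x (L x + 1))]` (`inc_self`).  The first is GLA with
`w z = h_k z (Si z - Sm z (L0 z))` on `B` (`|w z| ≤ C V z/4^k`: `lim`, `tlV`, `h1`; `0` off `B` by `hS`),
`∑_B w = ci - cL s0.2`.  The second is at most `R[|h_k x| Tl x (L x + 1)]` (`lim`), and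
`Tl x (L x + 1) ≤ V x [L x < J] + Tl x J` (`anti`, `tlV`, `tl0`): LTM (3) with `u = |h_k| V` gives `≤ J ∑_B |h_k| V ≤ C J aa ≤ C' J qq`,
and GLA with `w z = |h_k z| Tl z J` gives `≤ (∑_B |h_k| Tl J) R[μ_k] + C' qq + C' (k+1) aa E[1_Λ]`,
`∑_B |h_k| Tl J ≤ C ee`, `R[μ_k] ≥ 0` (`mu0`). (`aa ≤ C' qq` by Cauchy–Schwarz, see GLA.) -/
def CUR_stmt : Prop := ∀ (C : ℝ) (b : ℕ), ∃ C' : ℝ, 0 ≤ C' ∧ ∀ (a : ℝ) (p : Site 2 → ℕ → ℝ)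
  (V : Site 2 → ℝ) (Tl : Site 2 → ℕ → ℝ) (Si : Site 2 → ℝ) (φ : Site 2 → ℝ)
  (Φ : ℕ → Site 2 → ℝ) (κ : ℝ) (k1 : ℕ), Cook a p V Tl Si → Scl a φ Φ κ C b k1 →
  ∀ (k s : ℕ), k1 ≤ k → k ≤ s → ∀ (J N : ℕ) (s0 : St), s0.1 ∈ Bx b (s + 1) →
  |Rw p (Bx b (s + 1)) N (fun s => hk Φ k s.1 * DS a p s0.2 s s.1) s0 -
      (ci Φ Si b k - cL a p Φ b k s0.2) *
        Rw p (Bx b (s + 1)) N (fun s => La a (Φ k) s.1) s0| ≤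
    C' * ((1 + J) * qq V b k s +
        ee Tl b J k * Rw p (Bx b (s + 1)) N (fun s => La a (Φ k) s.1) s0) +
      C' * (k + 1) * aa V b k * Ex p (Bx b (s + 1)) N (one (Bx b (s + 1))) s0

/-- PACKET NMA (may assume LTM, YBD, BIL, NEA, CUR).  For every state: `κ k c + ∑ μ_k (c - c_∞)` is a martingale up
to a bounded error.  If `s0.1 ∉ Λ` the left side is `0` (`Ex_out`, `Rw_out`), the right side is nonnegative.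
Otherwise add BIL, NEA, CUR: `R[μ_k (cL (inc s) - cL s0.2)] - (ci - cL s0.2) R[μ_k] = R[μ_k (cL (inc s) - ci)]`
(`Rw_sub`, `Rw_smul`), and `R[μ_k] ≤ κ (s - k) + C + C ww` (YBD), `ee ≥ 0`. -/
def NMA_stmt : Prop := ∀ (C : ℝ) (b : ℕ), ∃ C' : ℝ, 0 ≤ C' ∧ ∀ (a : ℝ) (p : Site 2 → ℕ → ℝ)
  (V : Site 2 → ℝ) (Tl : Site 2 → ℕ → ℝ) (Si : Site 2 → ℝ) (φ : Site 2 → ℝ)
  (Φ : ℕ → Site 2 → ℝ) (κ : ℝ) (k1 : ℕ), Cook a p V Tl Si → Scl a φ Φ κ C b k1 →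
  ∀ (k s : ℕ), k1 ≤ k → k ≤ s → ∀ (J N : ℕ) (s0 : St),
  |κ * k * (Ex p (Bx b (s + 1)) N (fun s => cL a p Φ b k s.2) s0 - cL a p Φ b k s0.2) +
      Rw p (Bx b (s + 1)) N
        (fun s => La a (Φ k) s.1 * (cL a p Φ b k (inc s) - ci Φ Si b k)) s0| ≤
    C' * ((1 + J) * qq V b k s + ee Tl b J k * (κ * (s - k) + C + C * ww V b s)) +
      C' * (k + 1) * aa V b k * Ex p (Bx b (s + 1)) N (one (Bx b (s + 1))) s0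

/-- PACKET SEC (pure operators, second moment from the near martingale; this is the heart, please follow the
proof).  `E^N = Ex p Λ N`, `R_N = Rw p Λ N`, `u_N s = κ' (E^N c s - c s) + R_N[g] s`, `g s = μ s (c s + β s - c∞)`,
so `|u_N| ≤ A + B E^N[one Λ]`.
(i) For `F ∈ {β, g}` put `A^F_N s = R_N[F · (c - c s)] s` (`c s` = value at the starting state `s`,
i.e. `R_N[F c] s - c s R_N[F] s`).  Claim `A^F_N s = ∑_{n<N} E^n [ inn Λ (β · K (R_{N-1-n}[F])) ] s`, where `K = KK p Λ`: by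
induction from `A^F_{N+1} = K A^F_N + inn Λ (β · K R_N[F])`, which follows from `Rw_succ` and
`c (nxt s e) = c s + β s` for `s.1 ∈ Λ` (and all terms vanish for `s.1 ∉ Λ`).
(ii) `R_N[β] = E^N c - c` (`tele`, `stp_of_eq`).  Hence `κ' A^β_N + A^g_N = ∑_{n<N} E^n [inn Λ (β · K u_{N-1-n})]`, and
`|K u_j| ≤ A + B E^{j+1}[one Λ]`, so its absolute value is at most
`A R_N[|β|] + B ∑_{n<N} E^n[inn Λ (|β| E^{N-n}[one Λ])]`.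
(iii) `R_N[|β|] s ≤ W s ≤ a'` (`tele` for `W`, `W ≥ 0`), and `∑_{n<N} E^n[inn Λ (|β| E^{N-n}[one Λ])] s ≤ W s · E^N[one Λ] s` by
induction on `N`: the left side `X_N` satisfies `X_{N+1} = inn Λ (|β| E^{N+1}[one Λ]) + K X_N`, and
`W (nxt s e) = W s - |β s|` (for `s.1 ∉ Λ`: `E^{N}[one Λ] s = 0`).
(iv) `tele` for `(c - θ0)²`, `θ0 = c s0`: `E^N[(c - θ0)²] s0 = 2 A^β_N s0 + R_N[β²] s0`.
(v) `A^g_N s0 = R_N[μ (c + β - c∞)(c - θ0)] s0`; with `u = c - c∞`, `θ = θ0 - c∞`: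
`(u + β)(u - θ) = u² - uθ + β (u - θ) ≥ -θ²/4 - |β| |c - θ0|`, and `|c - θ0| ≤ a'` along the walk (invariant
`|c s - θ0| ≤ W s0 - W s`, use `Rw_mono_inv`), `μ ≤ m`: `A^g_N s0 ≥ -(θ²/4) R_N[μ] s0 - m a' R_N[|β|] s0`.
Altogether `κ' E^N[(c-θ0)²] ≤ 2 (A a' + B a' E^N[one Λ]) + (θ²/2) R_N[μ] + 2 m a'² + κ' ε a'`. -/
def SEC_stmt : Prop := ∀ (p : Site 2 → ℕ → ℝ), (∀ z i, 0 ≤ p z i) → (∀ z i, p z i ≤ 1) →
  ∀ (Λ : Finset (Site 2)) (c β μ W : St → ℝ) (cinf κ' A B a' m ε : ℝ), 0 < κ' → 0 ≤ A → 0 ≤ B →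
  0 ≤ m → 0 ≤ ε →
  (∀ s, s.1 ∈ Λ → ∀ e, c (nxt s e) = c s + β s) → (∀ s, s.1 ∈ Λ → ∀ e, W (nxt s e) = W s - |β s|) →
  (∀ s, 0 ≤ W s) → (∀ s, W s ≤ a') → (∀ s, |β s| ≤ ε) → (∀ s, 0 ≤ μ s) → (∀ s, μ s ≤ m) →
  (∀ (N : ℕ) (s : St), |κ' * (Ex p Λ N c s - c s) + Rw p Λ N (fun s => μ s * (c s + β s - cinf)) s|
    ≤ A + B * Ex p Λ N (one Λ) s) →
  ∀ (N : ℕ) (s0 : St), κ' * Ex p Λ N (fun s => (c s - c s0) ^ 2) s0 ≤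
    2 * A * a' + 2 * B * a' * Ex p Λ N (one Λ) s0 +
      (c s0 - cinf) ^ 2 / 2 * Rw p Λ N μ s0 + 2 * m * a' ^ 2 + κ' * ε * a'

/-- PACKET SQB (may assume LTM, YBD, NMA, SEC).  Apply SEC with `Λ = Bx b (s+1)`, `c s = cL s.2`, `β s = h_k s.1 dS s`,
`W s = ∑_{z∈Bx b k} |h_k z| (V z - Vm z (s.2 z))`, `a' = ∑_{Bx b k} |h_k| V ≤ C aa`, `μ s = μ_k s.1`, `m = ε = C/4^k`
(`|dS| ≤ 1`), `κ' = κ k`, and `A`, `B` from NMA; the last two terms are `≤ C'/4^k (aa² + κ k aa) ≤ C' (1 + κ) qq` (as `k ≤ 4^k`,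
`aa ≤ C' qq`, `aa² ≤ C' qq` by Cauchy–Schwarz with `card (Bx b (k+1)) ≤ (4b+1)² 4^k`).  YBD for `R[μ_k]`. -/
def SQB_stmt : Prop := ∀ (κ C : ℝ) (b : ℕ), ∃ C' : ℝ, 0 ≤ C' ∧ ∀ (a : ℝ) (p : Site 2 → ℕ → ℝ)
  (V : Site 2 → ℝ) (Tl : Site 2 → ℕ → ℝ) (Si : Site 2 → ℝ) (φ : Site 2 → ℝ)
  (Φ : ℕ → Site 2 → ℝ) (k1 : ℕ), Cook a p V Tl Si → Scl a φ Φ κ C b k1 →
  ∀ (k s : ℕ), k1 ≤ k → 1 ≤ k → k ≤ s → ∀ (J N : ℕ) (s0 : St),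
  κ * k * Ex p (Bx b (s + 1)) N (fun s => (cL a p Φ b k s.2 - cL a p Φ b k s0.2) ^ 2) s0 ≤
    C' * ((1 + J) * qq V b k s + ee Tl b J k * (s + 1 + ww V b s)) * aa V b k +
      C' * qq V b k s + C' * (cL a p Φ b k s0.2 - ci Φ Si b k) ^ 2 * (s + 1 + ww V b s) +
      C' * (k + 1) * aa V b k ^ 2 * Ex p (Bx b (s + 1)) N (one (Bx b (s + 1))) s0

/-- PACKET TRV (may assume LTM).  Trivial bound for the change of the charge of scale `k`: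
`E[cL] - cL s0.2 = R[h_k dS]` (LTM (1), with `w = h_k`, which vanishes off `Bx b k ⊆ Λ`), LTM (2), `h1`. -/
def TRV_stmt : Prop := ∀ (a : ℝ) (p : Site 2 → ℕ → ℝ) (V : Site 2 → ℝ) (Tl : Site 2 → ℕ → ℝ)
  (Si : Site 2 → ℝ) (φ : Site 2 → ℝ) (Φ : ℕ → Site 2 → ℝ) (κ C : ℝ) (b k1 : ℕ),
  Cook a p V Tl Si → Scl a φ Φ κ C b k1 → ∀ (k s : ℕ), k1 ≤ k → k ≤ s → ∀ (N : ℕ) (s0 : St),
  |Ex p (Bx b (s + 1)) N (fun s => cL a p Φ b k s.2) s0 - cL a p Φ b k s0.2| ≤ C * aa V b k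

/-- PACKET SUM (may assume LTM).  Lower bound for the expected number of visits to `0` before the exit from
`Λ = Bx b (s+1)`.  `f = φ - Φ_s`, `La a f = [x = 0] - μ_s`, `Df f = (Df φ - Df Φ_{k1}) + ∑_{k1≤k<s} h_k` (telescoping), so
(`tele`, `stp_pos`) `R[x = 0] = E[f] - f(x0) + R[μ_s] - R[dS (Df φ - Df Φ_{k1})] - ∑_k R[h_k dS]`.
`R[μ_s] ≥ 0`; `-f(x0) ≥ κ s - φ(x0)` (`low`); `f = 0` off `Bx b s` (`out`), in particular off `Λ`, and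
`f ≥ -C - (κ s + C)` on `Λ` (`plow`, `up`): `E[f] ≥ -(κ s + 2 C) E[1_Λ]`; `R[h_k dS] = E[cL_k] - cL_k(s0)` (LTM (1));
`Df φ - Df Φ_{k1}` vanishes off `Bx b k1` (`dout`) and is `≤ 2 C` in absolute value (`hbd`, `dphi1`): LTM (2). -/
def SUM_stmt : Prop := ∀ (a : ℝ) (p : Site 2 → ℕ → ℝ) (V : Site 2 → ℝ) (Tl : Site 2 → ℕ → ℝ)
  (Si : Site 2 → ℝ) (φ : Site 2 → ℝ) (Φ : ℕ → Site 2 → ℝ) (κ C : ℝ) (b k1 : ℕ),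
  Cook a p V Tl Si → Scl a φ Φ κ C b k1 → ∀ (s : ℕ), k1 ≤ s → ∀ (N : ℕ) (s0 : St),
  s0.1 ∈ Bx b (s + 1) →
  κ * s - φ s0.1 - (κ * s + 2 * C) * Ex p (Bx b (s + 1)) N (one (Bx b (s + 1))) s0 -
      2 * C * ∑ z ∈ Bx b k1, V z -
      ∑ k ∈ Finset.Ico k1 s, |Ex p (Bx b (s + 1)) N (fun s => cL a p Φ b k s.2) s0 -
        cL a p Φ b k s0.2| ≤
    Rw p (Bx b (s + 1)) N (fun s => if s.1 = 0 then 1 else 0) s0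

/-- PACKET UPP (may assume LTM, YBD).  Upper bound for the number of visits to `0` from every state at `0`.
Same identity: `R[x = 0] = E[f] - f(0) + R[μ_s] - R[dS Df f]`, `f = φ - Φ_s ≤ 0` (`ge`), `-f(0) ≤ κ s + C` (`zero`, `up`),
`R[μ_s] ≤ C + C ww` (YBD with `k = s`), `|R[dS Df f]| ≤ ∑_Λ (|Df φ| + |Df Φ_s|) V ≤ 2 C ww` (`hbd`, `dphi2`, LTM (2)). -/
def UPP_stmt : Prop := ∀ (a : ℝ) (p : Site 2 → ℕ → ℝ) (V : Site 2 → ℝ) (Tl : Site 2 → ℕ → ℝ)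
  (Si : Site 2 → ℝ) (φ : Site 2 → ℝ) (Φ : ℕ → Site 2 → ℝ) (κ C : ℝ) (b k1 : ℕ),
  Cook a p V Tl Si → Scl a φ Φ κ C b k1 → ∀ (s : ℕ), k1 ≤ s → ∀ (N : ℕ) (s0 : St), s0.1 = 0 →
  Rw p (Bx b (s + 1)) N (fun s => if s.1 = 0 then 1 else 0) s0 ≤ κ * s + 2 * C + 3 * C * ww V b s

/-- PACKET HIT (pure operators).  Induction on `N`.  `Rw_succ`.  If `s0.1 = 0` then `hp = 1` and the hypothesis
applies.  If `s0.1 ∉ Λ` the left side is `0` and `hp ≥ 0`.  If `0 ≠ s0.1 ∈ Λ` then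
`R_{N+1} s0 = stp (R_N) s0 ≤ stp (M hp N) s0 = M hp (N+1) s0` (`stp_mono`, induction hypothesis at the successors). -/
def HIT_stmt : Prop := ∀ (p : Site 2 → ℕ → ℝ), (∀ z i, 0 ≤ p z i) → (∀ z i, p z i ≤ 1) →
  ∀ (Λ : Finset (Site 2)) (M : ℝ), 0 ≤ M →
  (∀ (N : ℕ) (s : St), s.1 = 0 → Rw p Λ N (fun s => if s.1 = 0 then 1 else 0) s ≤ M) →
  ∀ (N : ℕ) (s0 : St), Rw p Λ N (fun s => if s.1 = 0 then 1 else 0) s0 ≤ M * hp p N s0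

/-- PACKET EXI (pure operators).  `f(x) = x_0² + x_1²`: `secondDiff f l = 2`, so `La a f = 1`, `Df f = 0` and `stp (f ∘ pos) = f + 1`
(`stp_pos`, any `a`).  `tele`: `∑_{m<N} E^m[one Λ] s0 = E^N[f] - f(x0) ≤ 2 (R+1)²` for `s0.1 ∈ Λ = box 2 R` (positions stay in
`box 2 (R+1)`, `Ex_mono_inv`).  `E^m[one Λ] s0` is nonincreasing in `m` (`K (one Λ) ≤ one Λ`), so
`N E^N[one Λ] ≤ 2 (R+1)²`.  (`s0.1 ∉ Λ`: it is `0`.) -/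
def EXI_stmt : Prop := ∀ (p : Site 2 → ℕ → ℝ), (∀ z i, 0 ≤ p z i) → (∀ z i, p z i ≤ 1) →
  ∀ (R N : ℕ) (s0 : St), N * Ex p (box 2 R) N (one (box 2 R)) s0 ≤ 2 * (R + 1) ^ 2

end Pool.Agent.Helper99.EXC
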