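import Pool.Agent.Helper99.EXC.DefsE
import Pool.Agent.Helper99.EXC.GoalsD

/-!
# EXC, part E: conclusion in one environment, the random environment, transfer to the walk

Exact statements of the packets.  `hist`, `IsERW`, `stepSet`, `hitSet`, `shift`, `SE`, ... are in
`Pool/Agent/Helper99/ERW` (`Basic`, `OneStep`, `Levy`, `PlaneMain`, `PlaneLevy`, `PlaneRecur`).
-/

open Finset MeasureTheory ProbabilityTheory Filter
open scoped ENNReal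

namespace Pool.Agent.Helper99.EXC

open Pool.Agent.Helper99.ERW

/-- PACKET DTA (may assume SQB).  `X = Ex (cL - cL0)²` satisfies `|Ex cL - cL0| ≤ √X` (Cauchy–Schwarz for the positive unital
operator `Ex`: expand `0 ≤ Ex (cL - cL0 - t)²` with `t = Ex cL - cL0`).  SQB and `(cL0 - ci)² ≤ 2 cL0² + 2 ci²` give
`X ≤ (C''/k) [((1+J) qq + ee (s+1+ww)) aa + qq + ci² (s+1+ww)] + (C''/k) cL0² (s+1+ww) + C'' aa² E[1_Λ]` (`(k+1)/k ≤ 2`, `κ > 0`);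
`√(x+y+z) ≤ √x + √y + √z`. -/
def DTA_stmt : Prop := ∀ (κ C : ℝ) (b : ℕ), ∃ C' : ℝ, 0 ≤ C' ∧ ∀ (a : ℝ) (p : Site 2 → ℕ → ℝ)
  (V : Site 2 → ℝ) (Tl : Site 2 → ℕ → ℝ) (Si : Site 2 → ℝ) (φ : Site 2 → ℝ)
  (Φ : ℕ → Site 2 → ℝ) (k1 : ℕ), Cook a p V Tl Si → Scl a φ Φ κ C b k1 →
  ∀ (k s : ℕ), k1 ≤ k → 1 ≤ k → k ≤ s → ∀ (J N : ℕ) (s0 : St),
  |Ex p (Bx b (s + 1)) N (fun s => cL a p Φ b k s.2) s0 - cL a p Φ b k s0.2| ≤
    C' * uu V Tl Si Φ b J k s + C' * |cL a p Φ b k s0.2| * Real.sqrt ((s + 1 + ww V b s) / k) +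
      C' * aa V b k * Real.sqrt (Ex p (Bx b (s + 1)) N (one (Bx b (s + 1))) s0)

/-- PACKET DET (may assume TRV, SUM, UPP, HIT, EXI, DTA).  Let `C'` be from DTA, `δ = κ/(8 C' + 8)`,
`c0 = κ/(4 (κ + 2C + 3C M)) ≤ 1`.  Fix the environment and `s0` (finite support of the local times).  `|cL_k s0.2| ≤ K/4^k` with
`K = C ∑_{z : s0.2 z ≠ 0} V z` (`h1`, `|Sm| ≤ Vm ≤ V`, `Sm z 0 = 0`).  Take `s` from the frequent set, so large that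
`s0.1 ∈ Bx b (s+1)`, `s ≥ max k1 1`, and then `N` so large that the terms with `E[1_Λ]` are at most `κ s/16` in total
(EXI with `R = b 2^(s+1)`).  SUM: the scales `k ∈ [k1, max k1 1)` (at most `k = 0`) by TRV (bounded independently of `s`), the others by DTA:
`∑ ≤ C' UU + C' K √(s + 1 + M s) ∑_k 4^-k + small ≤ C' δ s + C'' √s + small`.  For large `s` the left side of SUM is `≥ κ s/2`
(`φ s0.1`, `∑_{Bx b k1} V` fixed).  UPP: `R_N ≤ κ s + 2C + 3 C M s ≤ (κ + 2C + 3CM) s =: Mx` for all `N` and states at `0` (`s ≥ 1`).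
HIT: `κ s/2 ≤ Mx hp N s0`. -/
def DET_stmt : Prop := ∀ (κ C : ℝ) (b : ℕ), 0 < κ → 1 ≤ C → ∃ δ : ℝ, 0 < δ ∧ ∀ M : ℝ, 1 ≤ M →
  ∃ c0 : ℝ, 0 < c0 ∧ c0 ≤ 1 ∧ ∀ (a : ℝ) (p : Site 2 → ℕ → ℝ)
  (V : Site 2 → ℝ) (Tl : Site 2 → ℕ → ℝ) (Si : Site 2 → ℝ) (φ : Site 2 → ℝ)
  (Φ : ℕ → Site 2 → ℝ) (k1 J : ℕ), Cook a p V Tl Si → Scl a φ Φ κ C b k1 →
  (∃ᶠ s : ℕ in atTop, UU V Tl Si Φ b J k1 s ≤ δ * s ∧ ww V b s ≤ M * s) →
  ∀ s0 : St, {z | s0.2 z ≠ 0}.Finite → ∃ N : ℕ, c0 ≤ hp p N s0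

/-- PACKET COK.  Under the finiteness all series are summable; `Ss = ∑' (2σ_i - a)` (positive minus negative part),
`|Ss - Sm j| = |∑'_{i ≥ j}| ≤ Ts j`; `Ts` is antitone, `Ts 0 = Vs`, `Vm ≤ Vs`.  `p ≤ 1`: `∑_e ω z e i = 1` and balance. -/
def COK_stmt : Prop := ∀ (a : ℝ) (ω : Env 2), 0 < a → a < 1 → IsCookieEnv ω → IsBalanced ω →
  (∀ z, ∑' i, ENNReal.ofReal |2 * ω z (0, true) i - a| ≠ ∞) →
  Cook a (pw ω) (fun z => Vs a (ω z)) (fun z => Ts a (ω z)) (fun z => Ss a (ω z))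

/-- PACKET GME.  Measurability: `Vs a`, `Ts a · j`, `Ss a` are measurable functions of the stack (`Measurable.ennreal_tsum`, `fun_prop`), so
`GS .. s` is a measurable condition on `ω` (finite sums, products, `Real.sqrt`), and `∃ᶠ s` is a countable intersection of unions.  Also state
the three measurabilities. -/
def GME_stmt : Prop := ∀ a : ℝ, Measurable (Vs a) ∧ (∀ j, Measurable (fun σ => Ts a σ j)) ∧
  Measurable (Ss a) ∧ ∀ (Φ : ℕ → Site 2 → ℝ) (b k1 J : ℕ) (δ M : ℝ),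
  (∀ s, MeasurableSet {ω | GS a Φ b k1 J δ M s ω}) ∧ MeasurableSet (GE a Φ b k1 J δ M)

/-- PACKET STA (stationarity, second moments).  `P.map (fun ω => ω z) = P.map (fun ω => ω 0)` (`SE.map_eq` in `PlaneRecur`; it only uses `hSE.1`).
Last item: `(∑ w_z f_z)² ≤ (∑ |w_z|) ∑ |w_z| f_z²` (Cauchy–Schwarz), integrate. -/
def STA_stmt : Prop := ∀ (P : Measure (Env 2)) [IsProbabilityMeasure P], SE P →
  ∀ f : Stack 2 → ℝ, Measurable f → MemLp (fun ω : Env 2 => f (ω 0)) 2 P →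
  (∀ z, MemLp (fun ω : Env 2 => f (ω z)) 2 P) ∧
  (∀ z, ∫ ω, f (ω z) ^ 2 ∂P = ∫ ω, f (ω 0) ^ 2 ∂P) ∧
  (∀ z, ∫ ω, f (ω z) ∂P = ∫ ω, f (ω 0) ∂P) ∧
  ∀ (B : Finset (Site 2)) (w : Site 2 → ℝ),
    ∫ ω, (∑ z ∈ B, w z * f (ω z)) ^ 2 ∂P ≤ (∑ z ∈ B, |w z|) ^ 2 * ∫ ω, f (ω 0) ^ 2 ∂P

/-- PACKET MET (may assume STA).  Mean ergodic theorem.  `U_z g = g ∘ shift z` on `L²(P)` (unitary, commuting).  We may subtract the mean of `f` (the
weights have sum `0`).  `A_m g = m⁻² ∑_{u ∈ [0,m)²} U_u g = A¹_m A²_m g` with one-parameter averages; by the mean ergodic theorem of Mathlib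
(`ContinuousLinearMap.tendsto_birkhoffAverage_orthogonalProjection`, contractions) `A²_m g → P₂ g`, `A¹_m (P₂ g) → P₁ P₂ g`, `‖A¹_m‖ ≤ 1`, so
`A_m f̄ → P₁ P₂ f̄ =: g` in `L²`, `f̄ = f(ω 0) - mean`; `g` is invariant under `U_{e_1}` and (the projections commute because the `U` do) under `U_{e_2}`, hence under all shifts
(a.e.); by ergodicity it is constant: for real `c` the set `{ω : sup_z g(shift z ω) > c}` (supremum over the countable group, in `EReal` or as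
`{∃ z, g (shift z ω) > c}`) is strictly invariant and a.e. equal to `{g > c}`, so has measure `0` or `1`.  The mean is `0`, so `g = 0`.  Therefore
`‖A_m f̄‖ → 0`.  Now `∑_z h_k z U_z f̄ = ∑_z h_k z U_z A_m f̄ + ∑_x (h_k x - m⁻² ∑_{u∈[0,m)²} h_k (x - u)) U_x f̄`, and the norms are at most
`(∑|h_k|) ‖A_m f̄‖ ≤ C' ‖A_m f̄‖` and `∑_x m⁻² ∑_u |h_k x - h_k(x-u)| ‖f̄‖ ≤ C' m 2^-k ‖f̄‖` (Lipschitz `C/8^k`, at most `C'4^k` sites `x` for `m ≤ 2^k`).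
First `m` large, then `k → ∞`. -/
def MET_stmt : Prop := ∀ (P : Measure (Env 2)) [IsProbabilityMeasure P], SE P →
  ∀ f : Stack 2 → ℝ, Measurable f → MemLp (fun ω : Env 2 => f (ω 0)) 2 P →
  ∀ (h : ℕ → Site 2 → ℝ) (C : ℝ) (b k1 : ℕ),
  (∀ k, k1 ≤ k → ∀ x, x ∉ Bx b k → h k x = 0) → (∀ k, k1 ≤ k → ∀ x, |h k x| ≤ C / 4 ^ k) →
  (∀ k, k1 ≤ k → ∀ x y, |h k x - h k y| ≤ C / 8 ^ k * nm (x - y)) →
  (∀ k, k1 ≤ k → ∑ x ∈ Bx b k, h k x = 0) →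
  Tendsto (fun k => ∫ ω, (∑ z ∈ Bx b k, h k z * f (ω z)) ^ 2 ∂P) atTop (nhds 0)

/-- PACKET TJZ.  `Ts a σ J → 0` when `∑ |..| < ∞` (`ENNReal.tendsto_sum_nat_add` or summability), `0 ≤ Ts ≤ Vs ≤ W`, dominated convergence for the squares.
First item: `Vs ≤ W` from the bounded partial sums. -/
def TJZ_stmt : Prop := ∀ (P : Measure (Env 2)) [IsProbabilityMeasure P] (a : ℝ) (W : Stack 2 → ℝ),
  MemLp (fun ω : Env 2 => W (ω 0)) 2 P →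
  (∀ᵐ ω ∂P, ∀ j : ℕ, ∑ i ∈ range j, |2 * ω 0 (0, true) i - a| ≤ W (ω 0)) →
  (∀ᵐ ω ∂P, ∑' i, ENNReal.ofReal |2 * ω 0 (0, true) i - a| ≠ ∞ ∧ Vs a (ω 0) ≤ W (ω 0) ∧
    |Ss a (ω 0)| ≤ W (ω 0) ∧ ∀ j, 0 ≤ Ts a (ω 0) j ∧ Ts a (ω 0) j ≤ Vs a (ω 0)) ∧
  Tendsto (fun J => ∫ ω, Ts a (ω 0) J ^ 2 ∂P) atTop (nhds 0)

/-- PACKET LAT (lattice sums).  Rings of the sup norm: at most `8 j` points with `nm = j ≥ 1`, one with `nm = 0`.  The third: `∑_{y ∉ Bx b (k+1)} 2^k/(1+nm y)^3 ≤ 2^k ∑_{j > b 2^(k+1)} 8 j/j³ ≤ C`. -/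
def LAT_stmt : Prop := ∀ b : ℕ, 1 ≤ b → ∃ C : ℝ, 0 ≤ C ∧
  (∀ k : ℕ, ((Bx b (k + 1)).card : ℝ) ≤ C * 4 ^ k) ∧
  (∀ s : ℕ, ∑ z ∈ Bx b (s + 1), 1 / (1 + nm z) ^ 2 ≤ C * (s + 1)) ∧
  (∀ k s : ℕ, ∑ y ∈ Bx b (s + 1) \ Bx b (k + 1), 2 ^ k / (1 + nm y) ^ 3 ≤ C) ∧
  (∀ m : ℕ, ∑ z ∈ box 2 m, 1 / (1 + nm z) ≤ 20 * ((m : ℝ) + 1))

/-- PACKET ENV (may assume GME, STA, MET, TJZ, LAT).  Write `‖·‖` for the norm of `L²(P)`, `C` for constants depending on `b, Scl, P, W` but not on `k s J`.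
`‖aa‖ ≤ C`, `E bb ≤ C`, `‖tt‖ ≤ C`, `E ww ≤ C (s+1)`, `‖ee‖ ≤ C τ_J`, `τ_J² = ∫ Ts(ω 0, J)²` (STA last item with `f = Vs a`, `f = Ts a · J`; LAT), so `E qq ≤ C`.
From `√(x+y) ≤ √x + √y`: `uu ≤ k^(-1/2) [ √(1+J) √(qq aa) + √(ee aa) √(s+1+ww) + √qq + |ci| √(s+1+ww) ]`, so by Cauchy–Schwarz (`√(qq aa) ≤ qq + aa`, `√qq ≤ qq`)
`E uu ≤ C k^(-1/2) [ √(1+J) + √(τ_J) √(s+1) + ‖ci_k‖ √(s+1) ]`.  `∑_{1≤k<s} k^(-1/2) ≤ 2 √s`, and `‖ci_k‖ → 0` (MET with `f = Ss a`, `h = hk Φ`: fields `hS, h1, hL, h0` of `Scl`), so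
`limsup_s E UU/s ≤ C √(τ_J)`, which is `≤ δ/8` for a suitable `J` (TJZ).  Markov: `P(UU > δ s) ≤ 1/4` and `P(ww > M s) ≤ 1/4` for large `s`, `M = 8 C + 1`. -/
def ENV_stmt : Prop := ∀ (P : Measure (Env 2)) [IsProbabilityMeasure P], SE P → ∀ (a : ℝ)
  (W : Stack 2 → ℝ), 0 < a → a < 1 → MemLp (fun ω : Env 2 => W (ω 0)) 2 P →
  (∀ᵐ ω ∂P, ∀ j : ℕ, ∑ i ∈ range j, |2 * ω 0 (0, true) i - a| ≤ W (ω 0)) →
  ∀ (φ : Site 2 → ℝ) (Φ : ℕ → Site 2 → ℝ) (κ C : ℝ) (b k1 : ℕ), Scl a φ Φ κ C b k1 →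
  ∀ δ : ℝ, 0 < δ → ∃ (J : ℕ) (M : ℝ), 1 ≤ M ∧
    ∀ᶠ s in atTop, 1 / 2 ≤ P.real {ω | GS a Φ b k1 J δ M s ω}

/-- PACKET POS (may assume GME, TJZ, ENV).  `P(limsup A_s) ≥ limsup P(A_s) ≥ 1/2` (the unions over `s ≥ n` decrease), and the first condition of `GE` holds almost surely
(TJZ at the origin and stationarity, `SE.map_eq`, or `ae` under `map`). -/
def POS_stmt : Prop := ∀ (P : Measure (Env 2)) [IsProbabilityMeasure P], SE P → ∀ (a : ℝ)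
  (W : Stack 2 → ℝ), 0 < a → a < 1 → MemLp (fun ω : Env 2 => W (ω 0)) 2 P →
  (∀ᵐ ω ∂P, ∀ j : ℕ, ∑ i ∈ range j, |2 * ω 0 (0, true) i - a| ≤ W (ω 0)) →
  ∀ (φ : Site 2 → ℝ) (Φ : ℕ → Site 2 → ℝ) (κ C : ℝ) (b k1 : ℕ), Scl a φ Φ κ C b k1 →
  ∀ δ : ℝ, 0 < δ → ∃ (J : ℕ) (M : ℝ), 1 ≤ M ∧ P (GE a Φ b k1 J δ M) ≠ 0

/-- PACKET ONE.  Generalises `IsERW.measureReal_step`: `∫_{E ∩ step} g = ∫ 1_E g 1_step = ∫ μ[1_E g 1_step | hist n] = ∫_E g · cookie` (pull-out property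
`condExp_mul_of_stronglyMeasurable_left`, `IsERW.step`). -/
def ONE_stmt : Prop := ∀ (Ω : Type) (_ : MeasurableSpace Ω) (P : Measure (Env 2)) (μ : Measure Ω)
  [IsProbabilityMeasure μ] (env : Ω → Env 2) (X : ℕ → Ω → Site 2), IsERW P μ env X →
  (∀ᵐ ω ∂P, IsCookieEnv ω) → ∀ (n : ℕ) (e : Dir 2) (E : Set Ω), MeasurableSet[hist env X n] E →
  ∀ g : Ω → ℝ, Measurable[hist env X n] g → (∃ B, ∀ w, |g w| ≤ B) →
  ∫ w in E ∩ stepSet X n e, g w ∂μ =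
    ∫ w in E, env w (X n w) e (pastVisits (fun k => X k w) n) * g w ∂μ

/-- PACKET HPL (may assume ONE).  Induction on `N` (all `n`, `E`).  `0 ≤ hp ≤ 1` when the cookies are in `[0,1]` (a.s.).  Measurability: `stt X y n w` is a function of the path
`(X_0, .., X_n)`, which has countably many values; for a fixed state `st` the function `ω ↦ hp (pw (shift y ω)) N st` is measurable (induction, `stp` is a polynomial); use
`measurable_from_prod_countable_left` as in `measurable_cookie_hist`.  `N = 0`: `hp = 1` iff `X_n = y`.  Step: on `E ∩ {X_n = y}` the right side is `1`.  On `E' = E ∩ {X_n ≠ y}`,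
`hp (N+1) (stt n) = stp (hp N) (stt n)`, the four weights are the cookies `env w (X_n) e (pastVisits)` (balance; `pw (shift y env) (X_n - y) i = 2 env (X_n) (0,true) i`, and `1 - 2ω(0,true) = 2 ω(1,true)`), and on the step
set of `e`: `nxt (stt n w) e = stt (n+1) w` (`visits_succ`).  By ONE `∫_{E'} = ∑_e ∫_{E' ∩ step e} hp N (stt (n+1))`, the step sets are disjoint, and by induction (with `E' ∩ step e ∈ hist (n+1)`) each term is at most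
`μ(E' ∩ step e ∩ {hit in [n+1, n+1+N]})`. -/
def HPL_stmt : Prop := ∀ (Ω : Type) (_ : MeasurableSpace Ω) (P : Measure (Env 2)) (μ : Measure Ω)
  [IsProbabilityMeasure μ] (env : Ω → Env 2) (X : ℕ → Ω → Site 2), IsERW P μ env X →
  (∀ᵐ ω ∂P, IsCookieEnv ω) → (∀ᵐ ω ∂P, IsBalanced ω) → ∀ (y : Site 2) (N n : ℕ),
  Measurable[hist env X n] (fun w => hp (pw (shift y (env w))) N (stt X y n w)) ∧
  ∀ (E : Set Ω), MeasurableSet[hist env X n] E →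
  ∫ w in E, hp (pw (shift y (env w))) N (stt X y n w) ∂μ ≤
    μ.real (E ∩ {w | ∃ i, n ≤ i ∧ i ≤ n + N ∧ X i w = y})

/-- PACKET HGL (may assume HPL).  `E_N = {w ∈ E : c0 ≤ hp .. N (stt X y n w)}` is in `hist n` (HPL, first item), increasing in `N` (`hp N ≤ hp (N+1)` for cookies in `[0,1]`, induction) up to null sets, with union `E` (the
local times of `stt` have finite support).  `μ(E_N ∩ hit) ≥ ∫_{E_N} hp ≥ c0 μ(E_N)`; let `N → ∞`: `μ(E ∩ hitSet X 0 y n) ≥ c0 μ(E)`.  `box 2 0 = {0}`. -/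
def HGL_stmt : Prop := ∀ (Ω : Type) (_ : MeasurableSpace Ω) (P : Measure (Env 2)) (μ : Measure Ω)
  [IsProbabilityMeasure μ] (env : Ω → Env 2) (X : ℕ → Ω → Site 2), IsERW P μ env X →
  (∀ᵐ ω ∂P, IsCookieEnv ω) → (∀ᵐ ω ∂P, IsBalanced ω) → ∀ (y : Site 2) (G : Set (Env 2)) (c0 : ℝ),
  0 < c0 → c0 ≤ 1 → (∀ ω ∈ G, ∀ s0 : St, {z | s0.2 z ≠ 0}.Finite → ∃ N : ℕ, c0 ≤ hp (pw ω) N s0) →
  ∀ (n : ℕ) (E : Set Ω), MeasurableSet[hist env X n] E → (∀ w ∈ E, shift y (env w) ∈ G) →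
  μ.real (E \ hitSet X 0 y n) ≤ (1 - c0) * μ.real E

/-- PACKET IOE.  `IsERW.io_step` (in `ERW/Levy.lean`) for stacks which are elliptic only from some visit on.  For `q : ℕ` let `G_q = {w : ∀ i ≥ q, 1/(q+1) ≤ env w z e i}` (in `hist 0`), and apply the same
argument to `T_{q,m} = G_q ∩ {∃ᶠ n, X n = z} ∩ {no visit to z + e at times ≥ m}` with the first time `j ≥ k` such that `X j = z` and `visits j z ≥ q` in place of `firstAt` (constant `1 - 1/(q+1)`); almost surely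
some `G_q` occurs. -/
def IOE_stmt : Prop := ∀ (Ω : Type) (_ : MeasurableSpace Ω) (P : Measure (Env 2)) (μ : Measure Ω)
  [IsProbabilityMeasure μ] (env : Ω → Env 2) (X : ℕ → Ω → Site 2), IsERW P μ env X →
  (∀ᵐ ω ∂P, IsCookieEnv ω) → ∀ (z : Site 2) (e : Dir 2),
  (∀ᵐ ω ∂P, ∃ κ : ℝ, 0 < κ ∧ ∃ I : ℕ, ∀ i, I ≤ i → κ ≤ ω z e i) →
  ∀ᵐ w ∂μ, (∃ᶠ n in atTop, X n w = z) → ∃ᶠ n in atTop, X n w = z + vec e

/-- PACKET ASM (may assume DET, COK, GME, TJZ, POS, HGL, IOE; the scale package is a hypothesis).  Follow the proof of `IsERW.recurrent_plane` in `ERW/PlaneRecur.lean`.  `κ C b` from `Scl`; `δ` from DET; `J M` from POS; `c0` from DET.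
`G = GE a Φ b k1 J δ M ∩ {IsCookieEnv} ∩ {IsBalanced}` replaced by a measurable set: use `GE` (measurable, GME) for `SE.iUnion_eq_one`, and for the hypothesis of HGL the set of `ω ∈ GE` with `IsCookieEnv ω`, `IsBalanced ω` (which holds a.s. for all
shifts; the set need not be measurable in HGL, only `E` must: take `E = A ∩ {shift y (env w) ∈ GE}` minus a null set, or apply HGL on the a.s. event through `μ.real` and `ae_eq`).  DET with `p = pw ω`, COK.  So `hitSet X 0 y m` has probability one for all `m` on `{shift y env ∈ G}`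
(`null_of_condexp_bound`, `c = 1 - c0`), almost surely some `y` works, that site is visited infinitely often, and IOE + `forall_of_step` give all sites: almost surely for all `z` and `e` the hypothesis of IOE holds, because `∑ |2ω z (0,true) i - a| < ∞`
gives `2 ω z (0,true) i → a ∈ (0,1)` (all four directions, balance). -/
def ASM_stmt : Prop := ∀ (Ω : Type) (_ : MeasurableSpace Ω) (P : Measure (Env 2))
  [IsProbabilityMeasure P] (μ : Measure Ω) [IsProbabilityMeasure μ] (env : Ω → Env 2)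
  (X : ℕ → Ω → Site 2), IsERW P μ env X → (∀ᵐ ω ∂P, IsCookieEnv ω) → (∀ᵐ ω ∂P, IsBalanced ω) →
  SE P → ∀ (a : ℝ) (W : Stack 2 → ℝ), 0 < a → a < 1 → MemLp (fun ω : Env 2 => W (ω 0)) 2 P →
  (∀ᵐ ω ∂P, ∀ j : ℕ, ∑ i ∈ range j, |2 * ω 0 (0, true) i - a| ≤ W (ω 0)) →
  (∃ (φ : Site 2 → ℝ) (Φ : ℕ → Site 2 → ℝ) (κ C : ℝ) (b k1 : ℕ), Scl a φ Φ κ C b k1) →
  Recurrent μ X

end Pool.Agent.Helper99.EXC
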