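import Pool.Agent.Helper99.EXC.Basic

/-!
# EXC, part K: the potential kernel of the reference walk (exact statements of the packets)

`b = 1 - a` throughout the proofs; `λ = a (1 - cos θ)`, `D = √(λ² + 2 b λ) = dd a θ`, `ρ = 1 + (λ - D)/b = rho a θ`.
The kernel is a one dimensional integral; the formula with the coordinates exchanged (packet SYM) gives the
estimates in the other half of the plane.
-/

open Finset MeasureTheory

namespace Pool.Agent.Helper99.EXC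

open Pool.Agent.Helper99.ERW

noncomputable def lam (a θ : ℝ) : ℝ := a * (1 - Real.cos θ)

noncomputable def dd (a θ : ℝ) : ℝ := Real.sqrt (lam a θ ^ 2 + 2 * (1 - a) * lam a θ)

noncomputable def rho (a θ : ℝ) : ℝ := 1 + (lam a θ - dd a θ) / (1 - a)

/-- The potential kernel on `ℤ²`. -/
noncomputable def pot (a : ℝ) (x y : ℤ) : ℝ :=
  1 / (2 * Real.pi) * ∫ θ in (-Real.pi)..Real.pi,
    (1 - rho a θ ^ y.natAbs * Real.cos (x * θ)) / dd a θ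

/-- The potential kernel on `Site 2`. -/
noncomputable def ph (a : ℝ) (z : Site 2) : ℝ := pot a (z 0) (z 1)

/-- The growth constant per dyadic scale. -/
noncomputable def kap (a : ℝ) : ℝ := Real.log 2 / (Real.pi * Real.sqrt (a * (1 - a)))

/-- PACKET RHO (one variable calculus).  `0 ≤ λ ≤ 2 a`, `(2/π²) θ² ≤ 1 - cos θ ≤ θ²/2` on `[-π, π]`
(`Real.one_sub_sq_div_two_le_cos`, `Real.cos_le_one_sub_mul_cos_sq`.. or `1 - cos θ = 2 sin²(θ/2)` with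
`Real.mul_abs_le_abs_sin`).  `D ≥ √(2 b λ) ≥ c|θ|`, `D ≤ √((2a + 2b) λ) ≤ C|θ|`.  Algebra: `ρ = (λ + b - D)/b`,
`(λ + b)² - D² = b²`, so `ρ (λ + b + D)/b = 1`: hence `0 < ρ`, `ρ ≤ 1/(1 + D/b) ≤ 1`, `(b/2)(ρ² + 1) = (λ + b) ρ`,
`(b/2)(1 - ρ²) = D ρ`; `1 - ρ = (D - λ)/b ≤ D/b`.  `ρ ≤ 1/(1 + D/b) ≤ exp(-c|θ|)`: `log(1+u) ≥ u/(1+u)`, `u = D/b` bounded.
Last item: `|1/D - 1/(√(ab)|θ|)| ≤ C`: `|ab θ² - D²| ≤ C θ⁴` and `D, √(ab)|θ| ≥ c|θ|`, so the difference is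
`|ab θ² - D²| / (D √(ab)|θ| (D + √(ab)|θ|)) ≤ C |θ|`.  Evenness in `θ` is immediate.  Continuity of `dd`, `rho`: `fun_prop`. -/
def RHO_stmt : Prop := ∀ a : ℝ, 0 < a → a < 1 →
  (Continuous (dd a)) ∧ (Continuous (rho a)) ∧ (∀ θ, dd a (-θ) = dd a θ) ∧ (∀ θ, rho a (-θ) = rho a θ) ∧
  (∀ θ, 0 ≤ dd a θ) ∧ (∀ θ, 0 < rho a θ) ∧ (∀ θ, rho a θ ≤ 1) ∧
  (∀ θ, (1 - a) / 2 * (rho a θ ^ 2 + 1) = (lam a θ + (1 - a)) * rho a θ) ∧
  (∀ θ, (1 - a) / 2 * (1 - rho a θ ^ 2) = dd a θ * rho a θ) ∧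
  ∃ c C : ℝ, 0 < c ∧ 0 < C ∧ ∀ θ : ℝ, |θ| ≤ Real.pi →
    c * |θ| ≤ dd a θ ∧ dd a θ ≤ C * |θ| ∧ 1 - rho a θ ≤ C * |θ| ∧
    (∀ n : ℕ, rho a θ ^ n ≤ Real.exp (-(c * n * |θ|))) ∧
    (θ ≠ 0 → |1 / dd a θ - 1 / (Real.sqrt (a * (1 - a)) * |θ|)| ≤ C)

/-- PACKET INT (may assume RHO).  The integrands are integrable: `|1 - ρ^n cos(xθ)| ≤ (1 - ρ^n) + (1 - cos(xθ)) ≤ n (1-ρ) + |x||θ|
≤ C(n,x) |θ|` and `D ≥ c|θ|`, so the integrand is bounded on `[-π, π]`, and it is measurable (quotient of continuous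
functions).  `pot a 0 0 = 0`; evenness in `x` (cos) and in `y` (`natAbs`). -/
def INT_stmt : Prop := ∀ a : ℝ, 0 < a → a < 1 →
  (∀ (x : ℤ) (n : ℕ), IntervalIntegrable (fun θ => (1 - rho a θ ^ n * Real.cos (x * θ)) / dd a θ)
    volume (-Real.pi) Real.pi) ∧
  pot a 0 0 = 0 ∧ (∀ x y, pot a (-x) y = pot a x y) ∧ (∀ x y, pot a x (-y) = pot a x y)

/-- PACKET LAP (may assume RHO, INT).  Linearity of the integral (INT).  With `g_n = ρ^n/D` (`θ ≠ 0`) and `g(y) = g_{|y|}`: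
`a (cos((x+1)θ) + cos((x-1)θ) - 2 cos(xθ))/2 = -λ cos(xθ)`, so the integrand of `La a (ph a)` at `(x,y)` is
`cos(xθ) [ λ g(y) - (b/2)(g(y+1) + g(y-1) - 2 g(y)) ] = cos(xθ) [ (λ + b) g(y) - (b/2)(g(y+1)+g(y-1)) ]`; for `y ≠ 0` this
vanishes by `(b/2)(ρ²+1) = (λ+b)ρ`, for `y = 0` it is `cos(xθ) [(λ + b) - b ρ]/D = cos(xθ)` (`(λ+b)ρ - bρ² = (b/2)(1-ρ²) = Dρ`).
And `(1/2π) ∫ cos(xθ) = [x = 0]`. -/
def LAP_stmt : Prop := ∀ a : ℝ, 0 < a → a < 1 →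
  ∀ z : Site 2, La a (ph a) z = if z = 0 then 1 else 0

/-- PACKET SYM (may assume RHO).  Exchange of the coordinates, through the double integral.  Put
`q(ξ,η) = a (1 - cos ξ) + b (1 - cos η)`.  For `ξ ≠ 0` (in `[-π,π]`, so `λ = a(1 - cos ξ) > 0`) and `n : ℤ`:
`(1/2π) ∫_{-π}^{π} cos(n η)/q dη = ρ(ξ)^{|n|}/D(ξ)`: both sides, as functions of `n`, are bounded solutions `u` of
`(λ + b) u n - (b/2)(u(n+1) + u(n-1)) = [n = 0]` (for the integral because the integrand times `q` is `cos(nη)`), and the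
difference `d` of two bounded solutions satisfies `(λ+b)|d n| ≤ b sup|d|` for all `n`, so `d = 0`.  The `sin` part vanishes by
oddness: `(1/2π) ∫ (1 - cos(xξ + yη))/q dη = (1 - ρ^{|y|} cos(xξ))/D`.  The function `(1 - cos(xξ+yη))/q` is bounded
(`1 - cos u ≤ u²/2`, `q ≥ c (ξ² + η²)`) and measurable, so by Fubini
`pot a x y = (1/4π²) ∫∫ (1 - cos(xξ+yη))/q dη dξ = (1/4π²) ∫∫ .. dξ dη = pot (1 - a) y x`. -/
def SYM_stmt : Prop := ∀ a : ℝ, 0 < a → a < 1 →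
  (∀ x y : ℤ, pot a x y = pot (1 - a) y x) ∧
  ∀ x y : ℤ, pot a x y = 1 / (4 * Real.pi ^ 2) * ∫ ξ in (-Real.pi)..Real.pi,
    ∫ η in (-Real.pi)..Real.pi, (1 - Real.cos (x * ξ + y * η)) /
      (a * (1 - Real.cos ξ) + (1 - a) * (1 - Real.cos η))

/-- PACKET DIF (may assume RHO, INT).  Difference bounds in the half `|x| ≤ |y|`.  For `|y| ≤ 4` the points are finitely many:
any large `C` (also `d1`, `d2`, `d3` are bounded there).  Let `|y| = n ≥ 5`.  All points of the differences have second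
coordinate of the sign of `y` and modulus `≥ n - 3 ≥ 1`.  A mixed difference of `ρ^{|y|} cos(xθ)` over `i` horizontal and
`j` vertical unit steps is (difference of `cos`) times (difference of `ρ^m`): the first is at most `|θ|^i` (each difference of
`cos(mθ)` or `sin(mθ)` in `m` costs `|θ|`: e.g. by the complex exponential, `|exp(iθ) - 1| ≤ |θ|`), the second at most
`ρ^{n-3} (1 - ρ)^j ≤ exp(-c (n-3)|θ|) (C|θ|)^j`.  Divide by `D ≥ c|θ|`: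
`|difference| ≤ C ∫_{-π}^{π} |θ|^{i+j-1} exp(-c (n-3)|θ|) dθ ≤ C'/(n-3)^{i+j} ≤ C''/(1+n)^{i+j}`, `i + j = 1, 2, 3`
(the constant `1/D` cancels in the differences; `∫_0^∞ t^{m} e^{-ut} dt = m!/u^{m+1}`). -/
def DIF_stmt : Prop := ∀ a : ℝ, 0 < a → a < 1 → ∃ C : ℝ, ∀ x : Site 2, |x 0| ≤ |x 1| →
  (∀ (e : Dir 2), |ph a (x + vec e) - ph a x| ≤ C / (1 + nm x)) ∧
  (∀ (e f : Dir 2), |ph a (x + vec e + vec f) - ph a (x + vec e) - ph a (x + vec f) + ph a x| ≤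
    C / (1 + nm x) ^ 2) ∧
  (∀ (e f g : Dir 2), |ph a (x + vec e + vec f + vec g) - ph a (x + vec e + vec f) -
    ph a (x + vec e + vec g) - ph a (x + vec f + vec g) + ph a (x + vec e) + ph a (x + vec f) +
    ph a (x + vec g) - ph a x| ≤ C / (1 + nm x) ^ 3)

/-- PACKET LOG (may assume RHO, INT).  The logarithm in the half `|x| ≤ |y|`, `n = |y| ≥ 1` (`n = 0`: both sides bounded).
`pot = (1/π) ∫_0^π (1 - ρ^n cos(xθ))/D dθ` (even integrand); replacing `1/D` by `1/(√(ab) θ)` costs at most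
`(1/π) ∫ 2 C dθ` (RHO last item).  `∫_0^{1/n} |1 - ρ^n cos(xθ)|/θ dθ ≤ ∫_0^{1/n} (n C θ + |x| θ)/θ ≤ C + 1`;
`∫_{1/n}^{π} dθ/θ = log(π n)`; `∫_{1/n}^{π} ρ^n/θ dθ ≤ n ∫_0^∞ exp(-c n θ) dθ = 1/c`.  So `|pot - (1/(π√(ab))) log n| ≤ C'`, and
`log n` differs from `log(1+n)` by at most `log 2`; `kap a * logb 2 (1+n) = (1/(π√(ab))) log (1+n)`. -/
def LOG_stmt : Prop := ∀ a : ℝ, 0 < a → a < 1 → ∃ C : ℝ, ∀ x : Site 2, |x 0| ≤ |x 1| →
  |ph a x - kap a * Real.logb 2 (1 + nm x)| ≤ C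

/-- PACKET FRM (may assume RHO, SYM).  `ℓ²` bound.  By SYM (second item) and linearity, for `u : Site 2`
`Df (ph a) u = (1/4π²) ∫∫ m(ξ,η) cos(u_0 ξ + u_1 η) dη dξ`, `m = ((1 - cos ξ) - (1 - cos η))/q`, `q = a(1-cos ξ) + b(1 - cos η)`,
because half the second difference of `1 - cos(u·θ)` in direction `0` is `(1 - cos ξ) cos(u·θ)` (and `(1 - cos η) cos(u·θ)` in
direction `1`); `|m| ≤ M = max(1/a, 1/b)` (a.e.; `0/0 = 0` at the origin is harmless).  `cos((y-z)·θ) = cos(y·θ)cos(z·θ) + sin sin`, so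
`∑ f z Df(y-z) g y = (1/4π²) ∫∫ m (F_c G_c + F_s G_s)`, `F_c = ∑ f z cos(z·θ)` etc.; `|F_c G_c + F_s G_s| ≤ (t/2)(F_c²+F_s²) + (1/2t)(G_c²+G_s²)`
for every `t > 0`, and `(1/4π²) ∫∫ (F_c² + F_s²) = ∑ f z²` (orthogonality: `F_c²+F_s² = ∑_{z,z'} f z f z' cos((z-z')·θ)` and
`(1/4π²)∫∫ cos(u·θ) = [u = 0]`).  Choose `t` (or let `t` vary, with the degenerate cases) to get `M √(∑f²) √(∑g²)`. -/
def FRM_stmt : Prop := ∀ a : ℝ, 0 < a → a < 1 → ∃ C : ℝ, 0 ≤ C ∧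
  ∀ (B : Finset (Site 2)) (f g : Site 2 → ℝ),
    |∑ z ∈ B, ∑ y ∈ B, f z * Df (ph a) (y - z) * g y| ≤
      C * Real.sqrt (∑ z ∈ B, f z ^ 2) * Real.sqrt (∑ y ∈ B, g y ^ 2)

/-- PACKET KER (may assume RHO, INT, LAP, SYM, DIF, LOG, FRM).  Assembly: `DIF`, `LOG` for `a` in the half `|x 0| ≤ |x 1|` and for
`1 - a` in the other half, transported by `SYM` (`ph a z = ph (1-a) (swap z)`, `kap (1-a) = kap a`, `nm` invariant, swap of a direction is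
a direction); `even`: INT; constants: the maximum, `≥ 1` (all bounds are monotone in `C`). -/
def KER_stmt : Prop := ∀ a : ℝ, 0 < a → a < 1 → ∃ C : ℝ, Ker a (ph a) (kap a) C

end Pool.Agent.Helper99.EXC
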