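import Pool.Agent.Helper99.EXC.Basic

/-!
# EXC, part S: truncated potentials at the dyadic scales (from `Ker` to `Scl`)

`Φ k = κ k + FF (φ - κ k)` with the convex `C^{2,1}` function `FF`: `FF u = 1/2` for `u ≤ 0`, `FF u = u` for `u ≥ 1`.
Each packet proves a group of fields of `Scl` for all large `b` (with constants depending on `b`).
How to choose `b0`: from `Ker.log`, `φ x ≥ κ (k + 1) + 1` as soon as `nm x ≥ b 2^k - 3` and `b ≥ b0` (`b2^k - 3 ≥ (b/4) 2^k`,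
`κ logb 2 (b/4) ≥ κ + 1 + C`).  In the other direction `φ x > κ k` implies
`1 + nm x ≥ 2^(-C/κ) 2^k =: c 2^k`.  So the *ring* `{x : some point at distance ≤ 1 of x has φ > κ k} \ {x ∉ Bx b k}` satisfies
`c 2^k - 1 ≤ nm x ≤ b 2^k`, and there the differences of `φ` of order `1, 2, 3` are at most `C_b/2^k, C_b/4^k, C_b/8^k`
(for `k ≥ k1`, `1 + nm x ≥ (c/2) 2^k`).
-/

open Finset

namespace Pool.Agent.Helper99.EXC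

open Pool.Agent.Helper99.ERW

noncomputable def FF (u : ℝ) : ℝ := if u ≤ 0 then 1 / 2 else if u ≤ 1 then 1 / 2 + u ^ 3 - u ^ 4 / 2 else u

noncomputable def sg (u : ℝ) : ℝ := if u ≤ 0 then 0 else if u ≤ 1 then 3 * u ^ 2 - 2 * u ^ 3 else 1

noncomputable def ss (u : ℝ) : ℝ := if u ≤ 0 then 0 else if u ≤ 1 then 6 * u - 6 * u ^ 2 else 0

noncomputable def Phi (κ : ℝ) (φ : Site 2 → ℝ) (k : ℕ) (x : Site 2) : ℝ := κ * k + FF (φ x - κ * k)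

/-- PACKET FFP (one variable calculus).  `FF' = sg`, `sg' = ss`, `ss` is `6`-Lipschitz.  Taylor: `R h = FF (u+h) - FF u - sg u h - ss u h²/2`
has `R'' h = ss (u+h) - ss u`, `|R''| ≤ 6|h|`, so `|R' h| ≤ 3 h²`, `|R h| ≤ |h|³` (mean value inequality, or cases with
polynomial identities).  Tangent: `sg` is nondecreasing. -/
def FFP_stmt : Prop := (∀ u, u ≤ FF u) ∧ (∀ u, 1 / 2 ≤ FF u) ∧ (∀ u, 1 ≤ u → FF u = u) ∧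
  (∀ u, u ≤ 0 → FF u = 1 / 2) ∧ (∀ u, FF u ≤ |u| + 1) ∧ (∀ u, 0 ≤ sg u ∧ sg u ≤ 1) ∧
  (∀ u, 0 ≤ ss u ∧ ss u ≤ 2) ∧ (∀ u v, FF u + sg u * (v - u) ≤ FF v) ∧
  (∀ u v, |FF u - FF v| ≤ |u - v|) ∧
  (∀ u v, |sg u - sg v| ≤ 2 * |u - v|) ∧ (∀ u v, |ss u - ss v| ≤ 6 * |u - v|) ∧
  (∀ u h, |FF (u + h) - FF u - sg u * h - ss u * h ^ 2 / 2| ≤ |h| ^ 3)

/-- PACKET SA (may assume FFP).  `plow`: `Ker.log`, `logb ≥ 0`.  `hbd`: `secondDiff φ l x` is minus the second difference `d2` at the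
point `x - e` ... precisely `φ(x+e) + φ(x-e) - 2φ(x) = -(φ(x + e + (-e)) - φ(x+e) - φ(x-e) + φ(x))`, i.e. `d2` with
`e = (l,true)`, `f = (l,false)` (so `Df φ` is bounded by `C/(1+nm x)²` directly).  `ge`, `low`: `FF u ≥ u`, `FF ≥ 1/2 ≥ 0`.
`near`: `φ ≤ κ k + C_b` on `Bx b k`, `φ - κk` may be very negative but then `FF = 1/2`; `FF u ≤ max (1/2) .. ≤ |u|+1` for `u ≥ 0`.
`up`: `φ ≤ κ logb 2 (1 + b 2^(s+2)) + C ≤ κ s + C_b`.  `out`, `dout`: choice of `b0` above (all points at distance `≤ 1` of a point off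
`Bx b k` have `φ ≥ κ k + 1`). -/
def SA_stmt : Prop := ∀ (a : ℝ) (φ : Site 2 → ℝ) (κ C0 : ℝ), Ker a φ κ C0 → ∃ b0 : ℕ, ∀ b, b0 ≤ b →
  ∃ (C : ℝ) (k1 : ℕ), (∀ x, -C ≤ φ x) ∧ (∀ x, |Df φ x| ≤ C / (1 + nm x) ^ 2) ∧
  (∀ k x, φ x ≤ Phi κ φ k x) ∧ (∀ (k : ℕ) x, κ * k ≤ Phi κ φ k x) ∧
  (∀ k, k1 ≤ k → ∀ x, x ∉ Bx b k → Phi κ φ k x = φ x) ∧
  (∀ k, k1 ≤ k → ∀ x, x ∉ Bx b k → Df (Phi κ φ k) x = Df φ x) ∧
  (∀ k, k1 ≤ k → ∀ x ∈ Bx b k, |Phi κ φ k x - κ * k| ≤ C) ∧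
  (∀ k s : ℕ, k1 ≤ k → k ≤ s → ∀ x ∈ Bx b (s + 2), Phi κ φ k x ≤ κ * s + C)

/-- PACKET SB (may assume FFP).  `mu0`: tangent inequality at `u = φ x - κ k`: `La (FF ∘ (φ - κk)) x ≥ sg u · La φ x ≥ 0` (weights `a/2, a/2,
(1-a)/2, (1-a)/2` sum to `1`; `0 < a < 1` is a hypothesis).  `muS`: off `Bx b k` all five values are `≥ κk + 1`, so `La Φ_k x = La φ x = 0` (`x ≠ 0`).
`mu1`: if all five values are `≤ κ k`: `La Φ_k x = 0`; otherwise `x` is in the ring: `|FF(A+p) + FF(A+q) - 2FF(A)| ≤ |p + q| + p² + q² + |p|³ + |q|³`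
(Taylor, `|sg| ≤ 1`, `|ss| ≤ 2`), `p, q = O(2^-k)`, `p + q = O(4^-k)`; for `x = 0` and `k ≥ k1` the first case applies (`φ 0 = 0`,
`d1`). -/
def SB_stmt : Prop := ∀ (a : ℝ) (φ : Site 2 → ℝ) (κ C0 : ℝ), 0 < a → a < 1 → Ker a φ κ C0 →
  ∃ b0 : ℕ, ∀ b, b0 ≤ b → ∃ (C : ℝ) (k1 : ℕ), ∀ k, k1 ≤ k → ∀ x,
  0 ≤ La a (Phi κ φ k) x ∧ La a (Phi κ φ k) x ≤ C / 4 ^ k ∧ (x ∉ Bx b k → La a (Phi κ φ k) x = 0)

/-- PACKET SC (may assume FFP).  `psiO`: `x ∉ Bx b (k+1)`, `z ∈ Bx b k`: `Φ_k x = φ x` (`φ x ≥ κk+1` there) and `nm x/2 ≤ nm (x-z) ≤ 2 nm x`, so by `Ker.log`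
`|φ (x-z) - φ x| ≤ κ + 2 C0 + ..`.  `psiA`: for `x ∈ Bx b (k+1)`: `|Φ_k x - κk| ≤ C`, `-C ≤ φ (x-z) ≤ κ logb 2 (1 + 3b 2^k) + C ≤ κ k + C_b`,
so the difference is `≤ κ k + C ≤ C (k+1)`. -/
def SC_stmt : Prop := ∀ (a : ℝ) (φ : Site 2 → ℝ) (κ C0 : ℝ), Ker a φ κ C0 → ∃ b0 : ℕ, ∀ b, b0 ≤ b →
  ∃ (C : ℝ) (k1 : ℕ), (∀ k, k1 ≤ k → ∀ z ∈ Bx b k, ∀ x, |φ (x - z) - Phi κ φ k x| ≤ C * (k + 1)) ∧
  (∀ k, k1 ≤ k → ∀ z ∈ Bx b k, ∀ x, x ∉ Bx b (k + 1) → |φ (x - z) - Phi κ φ k x| ≤ C)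

/-- PACKET SD (may assume FFP, SC).  `psi2`.  For `x ∉ Bx b (k+1)`: SC.  For `x ∈ Bx b (k+1)`: `|Φ_k x - κ k| ≤ C`, and with
`w = x - z ∈ Bx b (k+2)`: `|φ w - κ k| ≤ κ |logb 2 ((1 + nm w)/2^k)| + C0`; for `t = 2^k/(1+nm w)`: if `t ≥ 1` then `log t ≤ 2 √t`,
so the square of the term is `≤ C (1 + 2^k/(1+nm w))`; if `t < 1` then `1/t ≤ 1 + 4b`: bounded.  And
`∑_{w ∈ box 2 m} 1/(1+nm w) ≤ 20 (m+1)` (rings: at most `8 j` points with `nm w = j ≥ 1`), `m = b 2^(k+2)`. -/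
def SD_stmt : Prop := ∀ (a : ℝ) (φ : Site 2 → ℝ) (κ C0 : ℝ), Ker a φ κ C0 → ∃ b0 : ℕ, ∀ b, b0 ≤ b →
  ∃ (C : ℝ) (k1 : ℕ), ∀ k, k1 ≤ k → ∀ x, ∑ z ∈ Bx b k, (φ (x - z) - Phi κ φ k x) ^ 2 ≤ C * 4 ^ k

/-- PACKET SE (may assume FFP).  `dphi1`, `dphi2`: three cases.  All five values `≤ κk`: `Df Φ_k x = 0`.  `x ∉ Bx b k`: `Df Φ_k x = Df φ x`, bounded by
`C/(1+nm x)² ≤ C/4^k`.  Ring: Taylor as in SB: each `|secondDiff Φ_k l x| ≤ C_b/4^k`, and `1 + nm x ≤ 2 b 2^k` there. -/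
def SE_stmt : Prop := ∀ (a : ℝ) (φ : Site 2 → ℝ) (κ C0 : ℝ), Ker a φ κ C0 → ∃ b0 : ℕ, ∀ b, b0 ≤ b →
  ∃ (C : ℝ) (k1 : ℕ), ∀ k, k1 ≤ k → ∀ x,
  |Df (Phi κ φ k) x| ≤ C / 4 ^ k ∧ |Df (Phi κ φ k) x| ≤ C / (1 + nm x) ^ 2

/-- PACKET SF (may assume SA).  `far`.  `Df Φ_k y = Df φ y` (SA, `y ∉ Bx b (k+1)`).  `Df φ (u + vec g) - Df φ u` is a combination of two third differences
`d3` at `u` (`e = (l,true)`, `f = (l,false)`, `g`; `secondDiff φ l u = -(d2 at u with e, f)`), so at most `C/(1+nm u)³`.  Go from `y` to `y - z` by `|z 0| + |z 1| ≤ 2 b 2^k` unit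
steps; all intermediate points `u` have `nm u ≥ nm y - b 2^k ≥ nm y/2`. -/
def SF_stmt : Prop := ∀ (a : ℝ) (φ : Site 2 → ℝ) (κ C0 : ℝ), Ker a φ κ C0 → ∃ b0 : ℕ, ∀ b, b0 ≤ b →
  ∃ (C : ℝ) (k1 : ℕ), ∀ k, k1 ≤ k → ∀ z ∈ Bx b k, ∀ y, y ∉ Bx b (k + 1) →
    |Df φ (y - z) - Df (Phi κ φ k) y| ≤ C * 2 ^ k / (1 + nm y) ^ 3

/-- PACKET SG (may assume FFP, SA, SE).  `hS`: off `Bx b k` (`b ≥ b0`) all values at distance `≤ 1` are `≥ κ (k+1) + 1`, so `Φ_k = Φ_{k+1} = φ` there.  `h1`: SE for `k` and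
`k + 1`.  `h0`: `u = Φ_k - Φ_{k+1}` vanishes off `Bx b k` and near its boundary, `hk = Df u`, and for every function `u` vanishing on the sites with `nm ≥ m` (`m = b2^k`):
`∑_{x ∈ box 2 m} secondDiff u l x = 0` (translate the sums over a larger box). To have room: `u = 0` already when `nm x ≥ b 2^k - 3`. -/
def SG_stmt : Prop := ∀ (a : ℝ) (φ : Site 2 → ℝ) (κ C0 : ℝ), Ker a φ κ C0 → ∃ b0 : ℕ, ∀ b, b0 ≤ b →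
  ∃ (C : ℝ) (k1 : ℕ), (∀ k, k1 ≤ k → ∀ x, x ∉ Bx b k → hk (Phi κ φ) k x = 0) ∧
  (∀ k, k1 ≤ k → ∀ x, |hk (Phi κ φ) k x| ≤ C / 4 ^ k) ∧
  (∀ k, k1 ≤ k → ∑ x ∈ Bx b k, hk (Phi κ φ) k x = 0)

/-- PACKET SH (may assume FFP).  `hL`.  It suffices (chain of `|x0-y0| + |x1-y1| ≤ 2 nm (x-y)` unit steps) that `|Df Φ_j (x + vec e) - Df Φ_j x| ≤ C/8^k`, `j = k, k+1`, whenever `hk` does not vanish at
both points; for each direction `l`: `T x = secondDiff Φ_j l x = FF(A+p) + FF(A+q) - 2 FF(A)`, `A = φ x - κ j`, `p = φ(x+e_l) - φ x`, `q = φ(x-e_l) - φ x`, so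
`|T x - sg A (p+q) - ss A (p²+q²)/2| ≤ |p|³ + |q|³` (FFP).  Compare `x` and `x' = x + vec e` (values `A', p', q'`): `|A'-A| ≤ C/2^k`, `|p|,|q|,|p'|,|q'| ≤ C/2^k`,
`|p+q| ≤ C/4^k` (d2), `|(p'+q')-(p+q)| ≤ C/8^k` (d3), `|p'-p|, |q'-q| ≤ C/4^k` (d2), `|sg A' - sg A| ≤ 2|A'-A|`, `|ss A' - ss A| ≤ 6|A'-A|`.
Everything is `O(8^-k)` in the ring.  If `x`, `x'` are off the ring: either all values `≤ κ j` (both `0`) or both off `Bx b k` (`hk = 0`).  (Ring: some value at distance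
`≤ 2` of `x` is `> κ k`, and `x ∈ Bx (2b) k`.) -/
def SH_stmt : Prop := ∀ (a : ℝ) (φ : Site 2 → ℝ) (κ C0 : ℝ), Ker a φ κ C0 → ∃ b0 : ℕ, ∀ b, b0 ≤ b →
  ∃ (C : ℝ) (k1 : ℕ), ∀ k, k1 ≤ k → ∀ x y, |hk (Phi κ φ) k x - hk (Phi κ φ) k y| ≤
    C / 8 ^ k * nm (x - y)

/-- PACKET SZ (may assume SA, SB, SC, SD, SE, SF, SG, SH).  Assembly: `b` = maximum of the `b0`s (and `1`), `C` = maximum of the constants (and `1`, and of `C0` for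
`form`), `k1` = maximum; all fields are monotone in `C` and `k1`. -/
def SZ_stmt : Prop := ∀ (a : ℝ) (φ : Site 2 → ℝ) (κ C0 : ℝ), 0 < a → a < 1 → Ker a φ κ C0 →
  ∃ (C : ℝ) (b k1 : ℕ), Scl a φ (Phi κ φ) κ C b k1

end Pool.Agent.Helper99.EXC
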