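import Pool.Agent.Helper99.EXC.GoalsE
import Pool.Agent.Helper99.EXC.GoalsK
import Pool.Agent.Helper99.EXC.GoalsS
import Pool.Agent.Helper39.EXC.LTM
import Pool.Agent.Helper61.EXC.SEC
import Pool.Agent.Helper61.EXC.HIT
import Pool.Agent.Helper19.EXC.EXI
import Pool.Agent.Helper3.EXC.YBD
import Pool.Agent.Helper2.EXC.GLA
import Pool.Agent.Helper56.EXC.BIL
import Pool.Agent.Helper45.EXC.NEA
import Pool.Agent.Helper89.EXC.NMA
import Pool.Agent.Helper13.EXC.SQB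
import Pool.Agent.Helper49.EXC.TRV
import Pool.Agent.Helper5.EXC.SUM
import Pool.Agent.Helper55.EXC.UPP
import Pool.Agent.Helper40.EXC.RHO
import Pool.Agent.Helper69.EXC.INT
import Pool.Agent.Helper83.EXC.LAP
import Pool.Agent.Helper68.EXC.SYM
import Pool.Agent.Helper50.EXC.DIF
import Pool.Agent.Helper45.EXC.LOG
import Pool.Agent.Helper68.EXC.FRM
import Pool.Agent.Helper51.EXC.KER
import Pool.Agent.Helper34.EXC.FFP
import Pool.Agent.Helper38.EXC.SA
import Pool.Agent.Helper56.EXC.SB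
import Pool.Agent.Helper89.EXC.SC
import Pool.Agent.Helper32.EXC.SD
import Pool.Agent.Helper93.EXC.SE
import Pool.Agent.Helper5.EXC.SF
import Pool.Agent.Helper79.EXC.SG
import Pool.Agent.Helper5.EXC.SH
import Pool.Agent.Helper49.EXC.SZ
import Pool.Agent.Helper86.EXC.COK
import Pool.Agent.Helper35.EXC.GME
import Pool.Agent.Helper35.EXC.TJZ
import Pool.Agent.Helper56.EXC.STA
import Pool.Agent.Helper61.EXC.LAT
import Pool.Agent.Helper61.EXC.POS
import Pool.Agent.Helper83.EXC.ONE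
import Pool.Agent.Helper39.EXC.HGL
import Pool.Agent.Helper37.EXC.IOE
import Pool.Agent.Helper50.EXC.ASM

/-! # EXC: assembly -/

open Finset MeasureTheory ProbabilityTheory Filter
open scoped ENNReal

namespace Pool.Agent.Helper99.EXC

open Pool.Agent.Helper99.ERW

theorem ker_all : KER_stmt :=
  Pool.Agent.Helper51.EXC.KER Pool.Agent.Helper40.EXC.RHO
    (Pool.Agent.Helper69.EXC.INT Pool.Agent.Helper40.EXC.RHO)
    (Pool.Agent.Helper83.EXC.LAP Pool.Agent.Helper40.EXC.RHO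
      (Pool.Agent.Helper69.EXC.INT Pool.Agent.Helper40.EXC.RHO))
    (Pool.Agent.Helper68.EXC.SYM Pool.Agent.Helper40.EXC.RHO)
    (Pool.Agent.Helper50.EXC.DIF Pool.Agent.Helper40.EXC.RHO
      (Pool.Agent.Helper69.EXC.INT Pool.Agent.Helper40.EXC.RHO))
    (Pool.Agent.Helper45.EXC.LOG Pool.Agent.Helper40.EXC.RHO
      (Pool.Agent.Helper69.EXC.INT Pool.Agent.Helper40.EXC.RHO))
    (Pool.Agent.Helper68.EXC.FRM Pool.Agent.Helper40.EXC.RHO
      (Pool.Agent.Helper68.EXC.SYM Pool.Agent.Helper40.EXC.RHO))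

theorem ffp : FFP_stmt := Pool.Agent.Helper34.EXC.FFP

theorem sa : SA_stmt := Pool.Agent.Helper38.EXC.SA ffp

theorem sc : SC_stmt := Pool.Agent.Helper89.EXC.SC ffp

theorem se : SE_stmt := Pool.Agent.Helper93.EXC.SE ffp

theorem scales : SZ_stmt :=
  Pool.Agent.Helper49.EXC.SZ sa (Pool.Agent.Helper56.EXC.SB ffp) sc
    (Pool.Agent.Helper32.EXC.SD ffp sc) se (Pool.Agent.Helper5.EXC.SF sa)
    (Pool.Agent.Helper79.EXC.SG ffp sa se) (Pool.Agent.Helper5.EXC.SH ffp)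

theorem exists_scl (a : ℝ) (ha0 : 0 < a) (ha1 : a < 1) :
    ∃ (φ : Site 2 → ℝ) (Φ : ℕ → Site 2 → ℝ) (κ C : ℝ) (b k1 : ℕ), Scl a φ Φ κ C b k1 := by
  obtain ⟨C0, hK⟩ := ker_all a ha0 ha1
  obtain ⟨C, b, k1, h⟩ := scales a (ph a) (kap a) C0 ha0 ha1 hK
  exact ⟨ph a, Phi (kap a) (ph a), kap a, C, b, k1, h⟩

theorem ltm : LTM_stmt := Pool.Agent.Helper39.EXC.LTM

theorem ybd : YBD_stmt := Pool.Agent.Helper3.EXC.YBD ltm

theorem nma (hCUR : CUR_stmt) : NMA_stmt :=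
  Pool.Agent.Helper89.EXC.NMA ltm ybd (Pool.Agent.Helper56.EXC.BIL ltm)
    (Pool.Agent.Helper45.EXC.NEA ltm) hCUR

theorem sqb (hCUR : CUR_stmt) : SQB_stmt :=
  Pool.Agent.Helper13.EXC.SQB ltm ybd (nma hCUR) Pool.Agent.Helper61.EXC.SEC

end Pool.Agent.Helper99.EXC
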